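import Pool.Agent.ER.Defs

/-!
# Constrained matrix invertibility over the reals
-/

namespace Pool.Agent.NPC.R537CM

/-- A zero pattern, given by the list of its rows; `true` stands for the symbol `*` and `false`
stands for `0`. -/
abbrev Pat : Type := List (List Bool)

/-- The pattern is an `n × n` pattern. -/
def Pat.IsSquare (P : Pat) (n : ℕ) : Prop := P.length = n ∧ ∀ r ∈ P, r.length = n

/-- The entry of a pattern at row `i` and column `j` (counted from `0`). -/
def Pat.entry (P : Pat) (i j : ℕ) : Bool := (P.getD i []).getD j false

/-- The real matrix `M` fits the pattern `P`: it is zero where the pattern is `0`. -/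
def Fits {n : ℕ} (M : Matrix (Fin n) (Fin n) ℝ) (P : Pat) : Prop :=
  ∀ i j : Fin n, P.entry i j = false → M i j = 0

/-- Constrained matrix invertibility over the reals: the instance consists of two `n × n` zero
patterns, and there are real matrices fitting them whose product is the identity matrix. -/
def CMI (I : Pat × Pat) : Prop :=
  ∃ n : ℕ, I.1.IsSquare n ∧ I.2.IsSquare n ∧
    ∃ A B : Matrix (Fin n) (Fin n) ℝ, Fits A I.1 ∧ Fits B I.2 ∧ A * B = 1

end Pool.Agent.NPC.R537CM
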