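import Mathlib

/-!
# Extending a rectangular factorization of the identity matrix to a square one
-/

set_option autoImplicit false

namespace Pool.Agent.R537.CM

open Matrix Module

/-- If `X Y = 1` with `X` a `p × (p + m)` matrix, then `X` consists of the first rows of an
invertible matrix whose inverse has the columns of `Y` as its first columns. -/
theorem extend_square {p m : ℕ} (X : Matrix (Fin p) (Fin (p + m)) ℝ)
    (Y : Matrix (Fin (p + m)) (Fin p) ℝ) (h : X * Y = 1) :
    ∃ A B : Matrix (Fin (p + m)) (Fin (p + m)) ℝ, A * B = 1 ∧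
      (∀ i, A (Fin.castAdd m i) = X i) ∧ ∀ i j, B i (Fin.castAdd m j) = Y i j := by
  have hsurj : Function.Surjective X.mulVecLin := by
    intro u
    refine ⟨Y.mulVec u, ?_⟩
    rw [mulVecLin_apply, mulVec_mulVec, h, one_mulVec]
  have hk : finrank ℝ (LinearMap.ker X.mulVecLin) = m := by
    have h1 := LinearMap.finrank_range_add_finrank_ker X.mulVecLin
    rw [LinearMap.range_eq_top.2 hsurj, finrank_top] at h1
    simp only [finrank_fintype_fun_eq_card, Fintype.card_fin] at h1
    omega
  let b : Basis (Fin m) ℝ (LinearMap.ker X.mulVecLin) := finBasisOfFinrankEq ℝ _ hk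
  have hb : ∀ j, X.mulVec (b j : Fin (p + m) → ℝ) = 0 := by
    intro j
    have := (b j).2
    rwa [LinearMap.mem_ker, mulVecLin_apply] at this
  let B : Matrix (Fin (p + m)) (Fin (p + m)) ℝ := fun i s =>
    Sum.elim (fun j => Y i j) (fun j => (b j : Fin (p + m) → ℝ) i) (finSumFinEquiv.symm s)
  have hBY : ∀ i j, B i (Fin.castAdd m j) = Y i j := by
    intro i j
    simp [B]
  have hBb : ∀ i j, B i (Fin.natAdd p j) = (b j : Fin (p + m) → ℝ) i := by
    intro i j
    simp [B]
  have hmv : ∀ w : Fin (p + m) → ℝ, B.mulVec w =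
      Y.mulVec (fun j => w (Fin.castAdd m j)) +
        ∑ j, w (Fin.natAdd p j) • (b j : Fin (p + m) → ℝ) := by
    intro w
    funext i
    rw [Pi.add_apply, Finset.sum_apply]
    simp only [mulVec, dotProduct, Fin.sum_univ_add, hBY, hBb, Pi.smul_apply, smul_eq_mul]
    congr 1
    exact Finset.sum_congr rfl fun j _ => mul_comm _ _
  have hXB : ∀ w, X.mulVec (B.mulVec w) = fun j => w (Fin.castAdd m j) := by
    intro w
    rw [hmv, mulVec_add, mulVec_mulVec, h, one_mulVec]
    have : X.mulVec (∑ j, w (Fin.natAdd p j) • (b j : Fin (p + m) → ℝ)) = 0 := by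
      have h1 : X.mulVec (∑ j, w (Fin.natAdd p j) • (b j : Fin (p + m) → ℝ)) =
          ∑ j, w (Fin.natAdd p j) • X.mulVec (b j : Fin (p + m) → ℝ) := by
        have := map_sum X.mulVecLin (fun j => w (Fin.natAdd p j) • (b j : Fin (p + m) → ℝ))
          Finset.univ
        simpa only [mulVecLin_apply, map_smul, mulVec_smul] using this
      rw [h1]
      simp [hb]
    rw [this, add_zero]
  have hinj : Function.Injective B.mulVec := by
    intro w w' hww
    have h0 : B.mulVec (w - w') = 0 := by
      rw [mulVec_sub, hww, sub_self]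
    have h1 : ∀ j, (w - w') (Fin.castAdd m j) = 0 := by
      intro j
      have := congrFun (hXB (w - w')) j
      rw [h0, mulVec_zero] at this
      exact this.symm
    have h2 : ∑ j, (w - w') (Fin.natAdd p j) • (b j : Fin (p + m) → ℝ) = 0 := by
      have h3 := hmv (w - w')
      rw [h0] at h3
      have h4 : (fun j => (w - w') (Fin.castAdd m j)) = 0 := by
        funext j; exact h1 j
      rw [h4, mulVec_zero, zero_add] at h3
      exact h3.symm
    have h5 : ∑ j, (w - w') (Fin.natAdd p j) • b j = 0 := by
      apply Subtype.ext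
      rw [Submodule.coe_sum]
      simpa using h2
    have h6 := Fintype.linearIndependent_iff.1 b.linearIndependent _ h5
    have h7 : w - w' = 0 := by
      funext i
      refine Fin.addCases (fun j => ?_) (fun j => ?_) i
      · exact h1 j
      · exact h6 j
    exact sub_eq_zero.1 h7
  have hu : IsUnit B := Matrix.mulVec_injective_iff_isUnit.1 hinj
  have hdet : IsUnit B.det := (Matrix.isUnit_iff_isUnit_det B).1 hu
  refine ⟨B⁻¹, B, Matrix.nonsing_inv_mul B hdet, ?_, hBY⟩
  intro i
  funext c
  -- `X` is determined by its products with the columns of `B`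
  have hXe : ∀ w, X.mulVec w i = (B⁻¹).mulVec w (Fin.castAdd m i) := by
    intro w
    have h1 := congrFun (hXB ((B⁻¹).mulVec w)) i
    have h2 : B.mulVec ((B⁻¹).mulVec w) = w := by
      rw [mulVec_mulVec, Matrix.mul_nonsing_inv B hdet, one_mulVec]
    rw [h2] at h1
    exact h1
  have h1 := hXe (Pi.single c 1)
  simp only [mulVec_single_one, col_apply] at h1
  exact h1.symm

end Pool.Agent.R537.CM
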