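import Pool.Agent.R537.CM.Defs
import Pool.Agent.R537.CM.Ext

/-!
# From prescribed inner products to constrained matrix invertibility
-/

set_option autoImplicit false

namespace Pool.Agent.NPC.R537CM

open Pool.Agent.R537.CM Finset

/-- The pattern with the entries `a i j`. -/
def grid (n : ℕ) (a : ℕ → ℕ → Bool) : Pat :=
  (List.range n).map fun i => (List.range n).map fun j => a i j

theorem grid_entry {n : ℕ} {a : ℕ → ℕ → Bool} {i j : ℕ} (hi : i < n) (hj : j < n) :
    (grid n a).entry i j = a i j := by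
  unfold Pat.entry grid
  simp [List.getD_eq_getElem?_getD, hi, hj]

theorem grid_square (n : ℕ) (a : ℕ → ℕ → Bool) : (grid n a).IsSquare n := by
  unfold Pat.IsSquare grid
  simp

theorem cmi_grid {n : ℕ} {a b : ℕ → ℕ → Bool} :
    CMI (grid n a, grid n b) ↔ ∃ A B : Matrix (Fin n) (Fin n) ℝ,
      (∀ i j : Fin n, a i j = false → A i j = 0) ∧
        (∀ i j : Fin n, b i j = false → B i j = 0) ∧ A * B = 1 := by
  constructor
  · rintro ⟨m, h1, -, A, B, hA, hB, h⟩
    have hm : m = n := by rw [← h1.1]; exact (grid_square n a).1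
    subst hm
    refine ⟨A, B, fun i j hij => hA i j ?_, fun i j hij => hB i j ?_, h⟩
    · rw [grid_entry i.2 j.2]; exact hij
    · rw [grid_entry i.2 j.2]; exact hij
  · rintro ⟨A, B, hA, hB, h⟩
    refine ⟨n, grid_square n a, grid_square n b, A, B, fun i j hij => hA i j ?_,
      fun i j hij => hB i j ?_, h⟩
    · rw [← grid_entry (a := a) i.2 j.2]; exact hij
    · rw [← grid_entry (a := b) i.2 j.2]; exact hij

/-- The rectangular version. -/
def RectSat (n P : ℕ) (a b : ℕ → ℕ → Bool) : Prop :=
  ∃ X Y : ℕ → ℕ → ℝ, (∀ i < P, ∀ c < n, a i c = false → X i c = 0) ∧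
    (∀ j < P, ∀ c < n, b c j = false → Y c j = 0) ∧
    ∀ i < P, ∀ j < P, ∑ c ∈ range n, X i c * Y c j = if i = j then 1 else 0

theorem cmi_grid_rect {n P : ℕ} {a b : ℕ → ℕ → Bool} (hPn : P ≤ n)
    (ha : ∀ i c, P ≤ i → a i c = true) (hb : ∀ c j, P ≤ j → b c j = true) :
    CMI (grid n a, grid n b) ↔ RectSat n P a b := by
  rw [cmi_grid]
  constructor
  · rintro ⟨A, B, hA, hB, h⟩
    refine ⟨fun i c => if h : i < n ∧ c < n then A ⟨i, h.1⟩ ⟨c, h.2⟩ else 0,
      fun c j => if h : c < n ∧ j < n then B ⟨c, h.1⟩ ⟨j, h.2⟩ else 0, ?_, ?_, ?_⟩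
    · intro i hi c hc hac
      simp only
      rw [dif_pos ⟨by omega, hc⟩]
      exact hA _ _ hac
    · intro j hj c hc hac
      simp only
      rw [dif_pos ⟨hc, by omega⟩]
      exact hB _ _ hac
    · intro i hi j hj
      have h1 := congrFun (congrFun h ⟨i, by omega⟩) ⟨j, by omega⟩
      rw [Matrix.mul_apply, Matrix.one_apply] at h1
      simp only [Fin.mk.injEq] at h1
      rw [← h1, ← Fin.sum_univ_eq_sum_range
        (fun c => (if h : i < n ∧ c < n then A ⟨i, h.1⟩ ⟨c, h.2⟩ else 0) *
          (if h : c < n ∧ j < n then B ⟨c, h.1⟩ ⟨j, h.2⟩ else 0))]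
      refine Finset.sum_congr rfl fun c _ => ?_
      rw [dif_pos ⟨by omega, c.2⟩, dif_pos ⟨c.2, by omega⟩]
  · rintro ⟨X, Y, hX, hY, h⟩
    obtain ⟨m, rfl⟩ := Nat.exists_eq_add_of_le hPn
    obtain ⟨A, B, hAB, hA, hB⟩ := extend_square (p := P) (m := m)
      (fun i c => X i c) (fun c j => Y c j) (by
        ext i j
        have := h i i.2 j j.2
        rw [← Fin.sum_univ_eq_sum_range (fun c => X i c * Y c j)] at this
        rw [Matrix.one_apply]
        refine Eq.trans ?_ (this.trans ?_)
        · exact Matrix.mul_apply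
        · simp [Fin.ext_iff])
    refine ⟨A, B, ?_, ?_, hAB⟩
    · intro i c hic
      refine Fin.addCases (fun i' => ?_) (fun i' => ?_) i (motive := fun i => a i c = false → A i c = 0) hic
      · intro hic
        have := congrFun (hA i') c
        rw [this]
        exact hX _ (by simp) _ c.2 hic
      · intro hic
        rw [ha _ _ (by simp)] at hic
        exact absurd hic (by simp)
    · intro c j hcj
      refine Fin.addCases (fun j' => ?_) (fun j' => ?_) j (motive := fun j => b c j = false → B c j = 0) hcj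
      · intro hcj
        rw [hB]
        exact hY _ (by simp) _ c.2 hcj
      · intro hcj
        rw [hb _ _ (by simp)] at hcj
        exact absurd hcj (by simp)

/-- Which private coordinates are present. -/
def al (p : ℕ) (lk : ℕ → ℕ → Bool) (i j : ℕ) : Bool :=
  decide (i ≠ j) && !(decide (i < p) && (decide (p ≤ j) && lk i (j - p)))

/-- The pattern of the left factor. -/
def aPat (κ P p : ℕ) (rs : ℕ → List ℕ) (lk : ℕ → ℕ → Bool) (i c : ℕ) : Bool :=
  decide (P ≤ i) || (decide (c = 0) ||
    ((decide (c ≤ κ) && (decide (i < p) && decide (c - 1 ∈ rs i))) ||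
      (decide (κ < c) && (decide ((c - (1 + κ)) / P = i) && al p lk i ((c - (1 + κ)) % P)))))

/-- The pattern of the right factor. -/
def bPat (κ P p : ℕ) (cs : ℕ → List ℕ) (lk : ℕ → ℕ → Bool) (c j : ℕ) : Bool :=
  decide (P ≤ j) || (decide (c = 0) ||
    ((decide (c ≤ κ) && (decide (p ≤ j) && decide (c - 1 ∈ cs (j - p)))) ||
      (decide (κ < c) && (decide ((c - (1 + κ)) % P = j) && al p lk ((c - (1 + κ)) / P) j))))

/-- Prescribed inner products: `p` row vectors with supports `rs i` and `q` column vectors with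
supports `cs j`; the inner products of the linked pairs have to be `-1`. -/
def PFpos (κ p q : ℕ) (rs cs : ℕ → List ℕ) (lk : ℕ → ℕ → Bool) : Prop :=
  ∃ X Y : ℕ → ℕ → ℝ, ∀ i < p, ∀ j < q, lk i j = true →
    ∑ k ∈ (range κ).filter (fun k => k ∈ rs i ∧ k ∈ cs j), X i k * Y j k = -1

theorem sum_split (κ M : ℕ) (f : ℕ → ℝ) : ∑ c ∈ range (1 + κ + M), f c =
    f 0 + ∑ k ∈ range κ, f (1 + k) + ∑ t ∈ range M, f (1 + κ + t) := by
  rw [Finset.sum_range_add, Finset.sum_range_add]
  simp

theorem exists_fn (κ : ℕ) (f g : ℕ → ℕ → ℝ) : ∃ Z : ℕ → ℕ → ℝ, (∀ i, Z i 0 = 1) ∧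
    (∀ i, ∀ k < κ, Z i (1 + k) = f i k) ∧ ∀ i t, Z i (1 + κ + t) = g i t := by
  refine ⟨fun i c => if c = 0 then 1 else if c ≤ κ then f i (c - 1) else g i (c - (1 + κ)),
    fun i => ?_, fun i k hk => ?_, fun i t => ?_⟩
  · simp
  · simp only
    rw [if_neg (by omega), if_pos (by omega)]
    congr 1
    omega
  · simp only
    rw [if_neg (by omega), if_neg (by omega)]
    congr 1
    omega

theorem cmi_of_pf {κ p q : ℕ} {rs cs : ℕ → List ℕ} {lk : ℕ → ℕ → Bool} (h : PFpos κ p q rs cs lk) :
    RectSat (1 + κ + (p + q) * (p + q)) (p + q) (aPat κ (p + q) p rs lk)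
      (bPat κ (p + q) p cs lk) := by
  obtain ⟨X, Y, hXY⟩ := h
  set P := p + q with hP
  let core : ℕ → ℕ → ℝ := fun i j => ∑ k ∈ range κ,
    (if i < p ∧ k ∈ rs i then X i k else 0) * (if p ≤ j ∧ k ∈ cs (j - p) then Y (j - p) k else 0)
  obtain ⟨XX, hx0, hxc, hxp⟩ := exists_fn κ (fun i k => if i < p ∧ k ∈ rs i then X i k else 0)
    (fun i t => if t / P = i ∧ al p lk i (t % P) = true then 1 else 0)
  obtain ⟨YY, hy0, hyc, hyp⟩ := exists_fn κ
    (fun j k => if p ≤ j ∧ k ∈ cs (j - p) then Y (j - p) k else 0)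
    (fun j t => if t % P = j ∧ al p lk (t / P) j = true then -(1 + core (t / P) j) else 0)
  refine ⟨XX, fun c j => YY j c, ?_, ?_, ?_⟩
  · intro i hi c hc hac
    simp only [aPat, Bool.or_eq_false_iff, Bool.and_eq_false_iff, decide_eq_false_iff_not,
      not_le, not_lt] at hac
    obtain ⟨-, h0, h1, h2⟩ := hac
    by_cases hcκ : c ≤ κ
    · obtain ⟨k, rfl⟩ : ∃ k, c = 1 + k := ⟨c - 1, by omega⟩
      have e : 1 + k - 1 = k := by omega
      rw [e] at h1
      rw [hxc i k (by omega), if_neg]
      rintro ⟨h4, h5⟩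
      rcases h1 with h1 | h1 | h1
      · omega
      · omega
      · exact h1 h5
    · obtain ⟨t, rfl⟩ : ∃ t, c = 1 + κ + t := ⟨c - (1 + κ), by omega⟩
      have e : 1 + κ + t - (1 + κ) = t := by omega
      rw [e] at h2
      rw [hxp i t, if_neg]
      rintro ⟨h4, h5⟩
      rcases h2 with h2 | h2 | h2
      · omega
      · exact h2 h4
      · rw [h2] at h5; exact absurd h5 (by simp)
  · intro j hj c hc hac
    simp only [bPat, Bool.or_eq_false_iff, Bool.and_eq_false_iff, decide_eq_false_iff_not,
      not_le, not_lt] at hac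
    obtain ⟨-, h0, h1, h2⟩ := hac
    by_cases hcκ : c ≤ κ
    · obtain ⟨k, rfl⟩ : ∃ k, c = 1 + k := ⟨c - 1, by omega⟩
      have e : 1 + k - 1 = k := by omega
      rw [e] at h1
      simp only
      rw [hyc j k (by omega), if_neg]
      rintro ⟨h4, h5⟩
      rcases h1 with h1 | h1 | h1
      · omega
      · omega
      · exact h1 h5
    · obtain ⟨t, rfl⟩ : ∃ t, c = 1 + κ + t := ⟨c - (1 + κ), by omega⟩
      have e : 1 + κ + t - (1 + κ) = t := by omega
      rw [e] at h2
      simp only
      rw [hyp j t, if_neg]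
      rintro ⟨h4, h5⟩
      rcases h2 with h2 | h2 | h2
      · omega
      · exact h2 h4
      · rw [h2] at h5; exact absurd h5 (by simp)
  · intro i hi j hj
    rw [sum_split]
    have e1 : ∑ k ∈ range κ, XX i (1 + k) * YY j (1 + k) = core i j := by
      refine Finset.sum_congr rfl fun k hk => ?_
      rw [Finset.mem_range] at hk
      rw [hxc i k hk, hyc j k hk]
    have e2 : ∑ t ∈ range (P * P), XX i (1 + κ + t) * YY j (1 + κ + t) =
        if al p lk i j = true then -(1 + core i j) else 0 := by
      have e3 : ∀ t ∈ range (P * P), XX i (1 + κ + t) * YY j (1 + κ + t) =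
          if t = i * P + j then (if al p lk i j = true then -(1 + core i j) else 0) else 0 := by
        intro t ht
        rw [hxp, hyp]
        by_cases h : t = i * P + j
        · have hd : t / P = i := by
            rw [h, mul_comm, Nat.mul_add_div (by omega), Nat.div_eq_of_lt hj, add_zero]
          have hm : t % P = j := by
            rw [h, mul_comm, Nat.mul_add_mod, Nat.mod_eq_of_lt hj]
          rw [if_pos h, hd, hm]
          by_cases ha : al p lk i j = true
          · rw [if_pos ⟨rfl, ha⟩, if_pos ⟨rfl, ha⟩, if_pos ha, one_mul]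
          · rw [if_neg (fun h => ha h.2), if_neg ha, zero_mul]
        · rw [if_neg h]
          by_cases hd : t / P = i
          · by_cases hm : t % P = j
            · exfalso
              apply h
              rw [← hd, ← hm, mul_comm, Nat.div_add_mod]
            · rw [if_neg (c := t % P = j ∧ _) (fun h => hm h.1), mul_zero]
          · rw [if_neg (c := t / P = i ∧ _) (fun h => hd h.1), zero_mul]
      rw [Finset.sum_congr rfl e3, Finset.sum_ite_eq', if_pos]
      rw [Finset.mem_range]
      calc i * P + j < i * P + P := by omega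
        _ = (i + 1) * P := by ring
        _ ≤ P * P := Nat.mul_le_mul_right _ hi
    rw [e1, e2]
    simp only
    rw [hx0, hy0, one_mul]
    by_cases ha : al p lk i j = true
    · have hne : i ≠ j := by
        intro hij
        simp [al, hij] at ha
      rw [if_pos ha, if_neg hne]
      ring
    · rw [if_neg ha]
      by_cases hij : i = j
      · rw [if_pos hij]
        have : core i j = 0 := by
          refine Finset.sum_eq_zero fun k _ => ?_
          by_cases hip : i < p
          · rw [if_neg (c := p ≤ j ∧ k ∈ cs (j - p)) (by omega), mul_zero]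
          · rw [if_neg (c := i < p ∧ k ∈ rs i) (by omega), zero_mul]
        rw [this]
        ring
      · rw [if_neg hij]
        have h1 : i < p ∧ p ≤ j ∧ lk i (j - p) = true := by
          simp only [al, ne_eq, Bool.and_eq_true, decide_eq_true_eq, Bool.not_eq_true',
            not_and, Bool.not_eq_false] at ha
          have := ha hij
          exact this
        have h2 := hXY i h1.1 (j - p) (by omega) h1.2.2
        have : core i j = -1 := by
          rw [← h2, Finset.sum_filter]
          refine Finset.sum_congr rfl fun k _ => ?_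
          by_cases hk1 : k ∈ rs i
          · by_cases hk2 : k ∈ cs (j - p)
            · rw [if_pos ⟨h1.1, hk1⟩, if_pos ⟨h1.2.1, hk2⟩, if_pos ⟨hk1, hk2⟩]
            · rw [if_neg (c := p ≤ j ∧ k ∈ cs (j - p)) (by tauto), mul_zero,
                if_neg (by tauto)]
          · rw [if_neg (c := i < p ∧ k ∈ rs i) (by tauto), zero_mul, if_neg (by tauto)]
        rw [this]
        ring

theorem pf_of_cmi {κ p q : ℕ} {rs cs : ℕ → List ℕ} {lk : ℕ → ℕ → Bool}
    (h : RectSat (1 + κ + (p + q) * (p + q)) (p + q) (aPat κ (p + q) p rs lk)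
      (bPat κ (p + q) p cs lk)) : PFpos κ p q rs cs lk := by
  obtain ⟨X, Y, hX, hY, hXY⟩ := h
  set P := p + q with hP
  -- the private coordinates do not contribute to a forbidden pair
  have hpriv : ∀ i < P, ∀ j < P, al p lk i j = false →
      ∑ t ∈ range (P * P), X i (1 + κ + t) * Y (1 + κ + t) j = 0 := by
    intro i hi j hj hal
    refine Finset.sum_eq_zero fun t ht => ?_
    rw [Finset.mem_range] at ht
    by_contra hne
    have h1 : X i (1 + κ + t) ≠ 0 := left_ne_zero_of_mul hne
    have h2 : Y (1 + κ + t) j ≠ 0 := right_ne_zero_of_mul hne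
    have h3 : aPat κ P p rs lk i (1 + κ + t) = true := by
      by_contra h3
      exact h1 (hX i hi _ (by omega) (by simpa using h3))
    have h4 : bPat κ P p cs lk (1 + κ + t) j = true := by
      by_contra h4
      exact h2 (hY j hj _ (by omega) (by simpa using h4))
    have e : 1 + κ + t - (1 + κ) = t := by omega
    simp only [aPat, bPat, e, Bool.or_eq_true, Bool.and_eq_true, decide_eq_true_eq] at h3 h4
    have h3' : t / P = i ∧ al p lk i (t % P) = true := by
      rcases h3 with h3 | h3 | h3 | h3
      · omega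
      · omega
      · omega
      · exact h3.2
    have h4' : t % P = j ∧ al p lk (t / P) j = true := by
      rcases h4 with h4 | h4 | h4 | h4
      · omega
      · omega
      · omega
      · exact h4.2
    rw [h4'.1, hal] at h3'
    exact absurd h3'.2 (by simp)
  -- the core coordinates
  have hXc : ∀ i < P, ∀ k < κ, ¬ (i < p ∧ k ∈ rs i) → X i (1 + k) = 0 := by
    intro i hi k hk hn
    refine hX i hi _ (by omega) ?_
    have e : 1 + k - 1 = k := by omega
    simp only [aPat, e, Bool.or_eq_false_iff, Bool.and_eq_false_iff, decide_eq_false_iff_not,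
      not_le, not_lt]
    refine ⟨hi, by omega, ?_, Or.inl (by omega)⟩
    by_cases h : i < p
    · exact Or.inr (Or.inr fun h' => hn ⟨h, h'⟩)
    · exact Or.inr (Or.inl (by omega))
  have hYc : ∀ j < P, ∀ k < κ, ¬ (p ≤ j ∧ k ∈ cs (j - p)) → Y (1 + k) j = 0 := by
    intro j hj k hk hn
    refine hY j hj _ (by omega) ?_
    have e : 1 + k - 1 = k := by omega
    simp only [bPat, e, Bool.or_eq_false_iff, Bool.and_eq_false_iff, decide_eq_false_iff_not,
      not_le, not_lt]
    refine ⟨hj, by omega, ?_, Or.inl (by omega)⟩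
    by_cases h : p ≤ j
    · exact Or.inr (Or.inr fun h' => hn ⟨h, h'⟩)
    · exact Or.inr (Or.inl (by omega))
  -- the diagonal
  have hdiag : ∀ i < P, X i 0 * Y 0 i = 1 := by
    intro i hi
    have h1 := hXY i hi i hi
    rw [sum_split, hpriv i hi i hi (by simp [al]), if_pos rfl] at h1
    have h2 : ∑ k ∈ range κ, X i (1 + k) * Y (1 + k) i = 0 := by
      refine Finset.sum_eq_zero fun k hk => ?_
      rw [Finset.mem_range] at hk
      by_cases h : i < p
      · rw [hYc i hi k hk (by omega), mul_zero]
      · rw [hXc i hi k hk (by omega), zero_mul]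
    rw [h2] at h1
    linarith
  refine ⟨fun i k => X i (1 + k) / X i 0, fun j k => Y (1 + k) (p + j) / Y 0 (p + j), ?_⟩
  intro i hi j hj hl
  have hi' : i < P := by omega
  have hj' : p + j < P := by omega
  have e : p + j - p = j := by omega
  have hal : al p lk i (p + j) = false := by
    simp only [al, e, hl, Bool.and_eq_false_iff, decide_eq_false_iff_not, Bool.not_eq_false']
    right
    simp [hi]
  have h1 := hXY i hi' (p + j) hj'
  rw [sum_split, hpriv i hi' (p + j) hj' hal, if_neg (by omega)] at h1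
  have hx : X i 0 ≠ 0 := left_ne_zero_of_mul (by rw [hdiag i hi']; exact one_ne_zero)
  have hy : Y 0 (p + j) ≠ 0 := right_ne_zero_of_mul (by rw [hdiag _ hj']; exact one_ne_zero)
  have h2 : ∑ k ∈ range κ, X i (1 + k) * Y (1 + k) (p + j) =
      ∑ k ∈ (range κ).filter (fun k => k ∈ rs i ∧ k ∈ cs j), X i (1 + k) * Y (1 + k) (p + j) := by
    rw [Finset.sum_filter]
    refine Finset.sum_congr rfl fun k hk => ?_
    rw [Finset.mem_range] at hk
    split_ifs with h
    · rfl
    · by_cases h3 : k ∈ rs i
      · rw [hYc (p + j) hj' k hk (by rw [e]; tauto), mul_zero]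
      · rw [hXc i hi' k hk (by tauto), zero_mul]
  rw [h2] at h1
  have h3 : ∑ k ∈ (range κ).filter (fun k => k ∈ rs i ∧ k ∈ cs j),
      X i (1 + k) / X i 0 * (Y (1 + k) (p + j) / Y 0 (p + j)) =
      (∑ k ∈ (range κ).filter (fun k => k ∈ rs i ∧ k ∈ cs j),
        X i (1 + k) * Y (1 + k) (p + j)) / (X i 0 * Y 0 (p + j)) := by
    rw [Finset.sum_div]
    refine Finset.sum_congr rfl fun k _ => ?_
    field_simp
  rw [h3, div_eq_iff (mul_ne_zero hx hy)]
  linarith

end Pool.Agent.NPC.R537CM
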