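import Pool.Agent.R537.CM.Sys
import Pool.Agent.H612.CollectPoly
import Pool.Agent.ER.Hard

/-!
# Constrained matrix invertibility over the reals is `∃ℝ`-hard
-/

set_option autoImplicit false

namespace Pool.Agent.NPC.R537CM

open Pool.Agent.NPC Pool.Agent.NPC.ER
open Pool.Agent.NPC.H612 (poly_idxOf)

/-- The variables of a system. -/
def vsOf (S : List ER.Con) : List ℕ := S.flatMap Con.vars

/-- The index of a variable. -/
def ixOf (V : List ℕ) (v : ℕ) : ℕ := V.idxOf v

/-- The columns of a system. -/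
def colsOf (S : List ER.Con) : List Col := S.flatMap fun c => conC (ixOf (vsOf S)) c

/-- The number of the core coordinates. -/
def kOf (S : List ER.Con) : ℕ := 3 * (vsOf S).length + 5

theorem ixOf_le (V : List ℕ) (v : ℕ) : ixOf V v ≤ V.length := List.idxOf_le_length

theorem colsOf_lt {S : List ER.Con} : ∀ c ∈ colsOf S, ∀ k ∈ c.1, k < kOf S := by
  intro c hc k hk
  obtain ⟨d, -, hd⟩ := List.mem_flatMap.1 hc
  unfold kOf
  set V := vsOf S with hV
  have hA : ∀ v, cA (ixOf V) v < 3 * V.length + 5 := fun v => by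
    have := ixOf_le V v
    simp only [cA]; omega
  have hB : ∀ v, cB (ixOf V) v < 3 * V.length + 5 := fun v => by
    have := ixOf_le V v
    simp only [cB]; omega
  have hD : ∀ v, cD (ixOf V) v < 3 * V.length + 5 := fun v => by
    have := ixOf_le V v
    simp only [cD]; omega
  have hvar : ∀ v, ∀ c ∈ varC (ixOf V) v, ∀ k ∈ c.1, k < 3 * V.length + 5 := by
    intro v c hc k hk
    simp only [varC, List.mem_cons, List.not_mem_nil, or_false] at hc
    rcases hc with rfl | rfl | rfl | rfl <;>
      simp only [unitC, List.mem_cons, List.not_mem_nil, or_false] at hk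
    · rcases hk with rfl | rfl | rfl | rfl
      · omega
      · exact hA _
      · exact hB _
      · exact hD _
    · subst hk; omega
    · subst hk; omega
    · subst hk; omega
  cases d with
  | one v =>
    rcases List.mem_append.1 hd with hd | hd
    · exact hvar _ _ hd k hk
    · rw [List.mem_singleton] at hd
      subst hd
      simp only [unitC, List.mem_cons, List.not_mem_nil, or_false] at hk
      subst hk
      exact hA _
  | add u v w =>
    rcases List.mem_append.1 hd with hd | hd
    · exact hvar _ _ hd k hk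
    rcases List.mem_append.1 hd with hd | hd
    · exact hvar _ _ hd k hk
    rcases List.mem_append.1 hd with hd | hd
    · exact hvar _ _ hd k hk
    simp only [List.mem_cons, List.not_mem_nil, or_false] at hd
    rcases hd with rfl | rfl | rfl | rfl <;>
      simp only [unitC, tieC, List.mem_cons, List.not_mem_nil, or_false] at hk
    · subst hk; omega
    · rcases hk with rfl | rfl
      · omega
      · exact hA _
    · rcases hk with rfl | rfl
      · omega
      · exact hB _
    · rcases hk with rfl | rfl | rfl | rfl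
      · omega
      · exact hA _
      · exact hB _
      · exact hA _
  | mul u v w =>
    rcases List.mem_append.1 hd with hd | hd
    · exact hvar _ _ hd k hk
    rcases List.mem_append.1 hd with hd | hd
    · exact hvar _ _ hd k hk
    rcases List.mem_append.1 hd with hd | hd
    · exact hvar _ _ hd k hk
    simp only [List.mem_cons, List.not_mem_nil, or_false] at hd
    rcases hd with rfl | rfl | rfl | rfl | rfl | rfl | rfl | rfl | rfl | rfl | rfl | rfl | rfl <;>
      simp only [unitC, tieC, List.mem_cons, List.not_mem_nil, or_false] at hk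
    · subst hk; omega
    · subst hk; omega
    · subst hk; exact hB _
    · subst hk; omega
    · subst hk; omega
    · subst hk; exact hD _
    · subst hk; omega
    · subst hk; exact hA _
    · rcases hk with rfl | rfl
      · omega
      · exact hB _
    · subst hk; omega
    · rcases hk with rfl | rfl
      · omega
      · exact hA _
    · rcases hk with rfl | rfl
      · omega
      · exact hD _
    · rcases hk with rfl | rfl | rfl | rfl | rfl
      · omega
      · exact hA _
      · exact hB _
      · exact hD _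
      · omega

theorem sat_iff_pf (S : List ER.Con) : Sat S ↔ PF (colsOf S) := by
  constructor
  · rintro ⟨x, hx⟩
    let vl : ℕ → ℝ := fun k => x ((vsOf S).getD ((k - 2) / 3) 0)
    have hvl : ∀ v ∈ vsOf S, VlOk (ixOf (vsOf S)) vl x v := by
      intro v hv
      have hi : (vsOf S).idxOf v < (vsOf S).length := List.idxOf_lt_length_iff.2 hv
      have hg : (vsOf S).getD ((vsOf S).idxOf v) 0 = v := by
        rw [List.getD_eq_getElem _ _ hi]
        exact List.getElem_idxOf hi
      refine ⟨?_, ?_, ?_⟩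
      · have e : (cA (ixOf (vsOf S)) v - 2) / 3 = (vsOf S).idxOf v := by
          simp only [cA, ixOf]; omega
        simp only [vl, e, hg]
      · have e : (cB (ixOf (vsOf S)) v - 2) / 3 = (vsOf S).idxOf v := by
          simp only [cB, ixOf]; omega
        simp only [vl, e, hg]
      · have e : (cD (ixOf (vsOf S)) v - 2) / 3 = (vsOf S).idxOf v := by
          simp only [cD, ixOf]; omega
        simp only [vl, e, hg]
    refine ⟨XX vl, fun c hc => ?_⟩
    obtain ⟨d, hd, hc⟩ := List.mem_flatMap.1 hc
    exact conC_complete (fun v hv => hvl v (List.mem_flatMap.2 ⟨d, hd, hv⟩)) (hx d hd) c hc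
  · intro h
    obtain ⟨X, hN, hX⟩ := normalize h
    exact ⟨valOf (ixOf (vsOf S)) X, fun c hc =>
      conC_sound hN fun d hd => hX d (List.mem_flatMap.2 ⟨c, hc, hd⟩)⟩

/-- The size of the instance. -/
def nOf (S : List ER.Con) : ℕ :=
  1 + kOf S + ((rowsOf (colsOf S)).length + (colsOf S).length) *
    ((rowsOf (colsOf S)).length + (colsOf S).length)

/-- The instance of a system. -/
def cinst (S : List ER.Con) : Pat × Pat :=
  (grid (nOf S) (aPat (kOf S) ((rowsOf (colsOf S)).length + (colsOf S).length)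
    (rowsOf (colsOf S)).length (rsOf (colsOf S)) (lkOf (colsOf S))),
  grid (nOf S) (bPat (kOf S) ((rowsOf (colsOf S)).length + (colsOf S).length)
    (rowsOf (colsOf S)).length (csOf (colsOf S)) (lkOf (colsOf S))))

theorem sat_iff_cmi (S : List ER.Con) : Sat S ↔ CMI (cinst S) := by
  rw [sat_iff_pf, pf_iff_pos colsOf_lt]
  unfold cinst
  rw [cmi_grid_rect (P := (rowsOf (colsOf S)).length + (colsOf S).length)]
  · exact ⟨cmi_of_pf, pf_of_cmi⟩
  · unfold nOf
    have h : ∀ m : ℕ, m ≤ m * m := fun m => Nat.le_mul_self m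
    have := h ((rowsOf (colsOf S)).length + (colsOf S).length)
    omega
  · intro i c h
    simp [aPat, h]
  · intro c j h
    simp [bPat, h]

/-! ### Polynomial time -/

section

variable {α : Type} [TEnc α]

theorem poly_con_vars {f : α → ER.Con} (hf : Poly f) : Poly (fun a => (f a).vars) := by
  have h0 : Poly (fun a => (f a).code) := poly_con_code hf
  have h1 : Poly (fun a => decide ((f a).code.1 = 0)) := Poly.decide_eq (Poly.fst h0) (Poly.const 0)
  have h : Poly (fun a => if (f a).code.1 = 0 then [(f a).code.2.1] else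
      [(f a).code.2.1, (f a).code.2.2.1, (f a).code.2.2.2]) :=
    Poly.ite h1 (Poly.cons (Poly.fst (Poly.snd h0)) (Poly.const _))
      (Poly.cons (Poly.fst (Poly.snd h0)) (Poly.cons (Poly.fst (Poly.snd (Poly.snd h0)))
        (Poly.cons (Poly.snd (Poly.snd (Poly.snd h0))) (Poly.const _))))
  refine h.congr fun a => ?_
  cases f a <;> simp [Con.code, Con.vars]

theorem poly_vsOf {S : α → List ER.Con} (hS : Poly S) : Poly (fun a => vsOf (S a)) :=
  Poly.flatMap (F := fun _ c => Con.vars c) hS (poly_con_vars (Poly.snd Poly.id))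

variable {V : α → List ℕ} {u v w k z : α → ℕ} {r : α → Row}

theorem poly_ixOf (hV : Poly V) (hv : Poly v) : Poly (fun a => ixOf (V a) (v a)) :=
  poly_idxOf hV hv

theorem poly_cA (hV : Poly V) (hv : Poly v) : Poly (fun a => cA (ixOf (V a)) (v a)) :=
  Poly.add (Poly.mul (Poly.const 3) (poly_ixOf hV hv)) (Poly.const 2)

theorem poly_cB (hV : Poly V) (hv : Poly v) : Poly (fun a => cB (ixOf (V a)) (v a)) :=
  Poly.add (Poly.mul (Poly.const 3) (poly_ixOf hV hv)) (Poly.const 3)

theorem poly_cD (hV : Poly V) (hv : Poly v) : Poly (fun a => cD (ixOf (V a)) (v a)) :=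
  Poly.add (Poly.mul (Poly.const 3) (poly_ixOf hV hv)) (Poly.const 4)

theorem poly_rE (hk : Poly k) : Poly (fun a => rE (k a)) :=
  Poly.pair (Poly.const 0) (Poly.cons hk (Poly.const []))

theorem poly_rH (hz : Poly z) : Poly (fun a => rH (z a)) :=
  Poly.pair (Poly.const 1) (Poly.cons (Poly.const 0) (Poly.cons hz (Poly.const [])))

theorem poly_unitC (hk : Poly k) (hr : Poly r) : Poly (fun a => unitC (k a) (r a)) :=
  Poly.pair (Poly.cons hk (Poly.const [])) (Poly.cons (poly_rE hk) (Poly.cons hr (Poly.const [])))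

theorem poly_tieC (hz : Poly z) (hr : Poly r) : Poly (fun a => tieC (z a) (r a)) :=
  Poly.pair (Poly.cons (Poly.const 0) (Poly.cons hz (Poly.const [])))
    (Poly.cons (poly_rE hz) (Poly.cons (poly_rH hz) (Poly.cons hr (Poly.const []))))

theorem poly_varC (hV : Poly V) (hv : Poly v) : Poly (fun a => varC (ixOf (V a)) (v a)) := by
  have hA := poly_cA hV hv
  have hB := poly_cB hV hv
  have hD := poly_cD hV hv
  have h0 : Poly (fun _ : α => (0 : ℕ)) := Poly.const 0
  refine Poly.cons (Poly.pair (Poly.cons h0 (Poly.cons hA (Poly.cons hB (Poly.cons hD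
    (Poly.const [])))) ) ?_) (Poly.cons (poly_unitC h0 (poly_rH hA)) (Poly.cons
      (poly_unitC h0 (poly_rH hB)) (Poly.cons (poly_unitC h0 (poly_rH hD)) (Poly.const []))))
  exact Poly.cons (poly_rE hA) (Poly.cons (poly_rE hB) (Poly.cons (poly_rE hD)
    (Poly.cons (poly_rH hA) (Poly.cons (poly_rH hB) (Poly.cons (poly_rH hD) (Poly.const []))))))

theorem poly_rT (hV : Poly V) (hu : Poly u) (hv : Poly v) :
    Poly (fun a => rT (ixOf (V a)) (u a) (v a)) :=
  Poly.pair (Poly.const 1) (Poly.cons (Poly.const 0) (Poly.cons (poly_cA hV hu)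
    (Poly.cons (poly_cB hV hv) (Poly.const []))))

theorem poly_rM (hV : Poly V) (hu : Poly u) (hv : Poly v) :
    Poly (fun a => rM (ixOf (V a)) (u a) (v a)) :=
  Poly.pair (Poly.const 2) (Poly.cons (Poly.const 0) (Poly.cons (poly_cA hV hu)
    (Poly.cons (poly_cB hV hv) (Poly.const []))))

theorem poly_rQ (hV : Poly V) (hu : Poly u) (hv : Poly v) :
    Poly (fun a => rQ (ixOf (V a)) (u a) (v a)) :=
  Poly.pair (Poly.const 1) (Poly.cons (Poly.const 0) (Poly.cons (poly_cA hV hu)
    (Poly.cons (poly_cD hV hv) (Poly.const []))))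

theorem poly_rP (hz : Poly z) : Poly (fun a => rP (z a)) :=
  Poly.pair (Poly.const 0) (Poly.cons (Poly.const 0) (Poly.cons hz (Poly.const [1])))

theorem poly_oneC (hV : Poly V) (hv : Poly v) : Poly (fun a => oneC (ixOf (V a)) (v a)) :=
  Poly.append (poly_varC hV hv) (Poly.cons (poly_unitC (poly_cA hV hv) (poly_rH (poly_cA hV hv)))
    (Poly.const []))

theorem poly_addC (hV : Poly V) (hu : Poly u) (hv : Poly v) (hw : Poly w) :
    Poly (fun a => addC (ixOf (V a)) (u a) (v a) (w a)) := by
  have h0 : Poly (fun _ : α => (0 : ℕ)) := Poly.const 0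
  have hT := poly_rT hV hu hv
  have hA := poly_cA hV hu
  have hB := poly_cB hV hv
  have hC := poly_cA hV hw
  refine Poly.append (poly_varC hV hu) (Poly.append (poly_varC hV hv)
    (Poly.append (poly_varC hV hw) ?_))
  refine Poly.cons (poly_unitC h0 hT) (Poly.cons (poly_tieC hA hT) (Poly.cons (poly_tieC hB hT)
    (Poly.cons ?_ (Poly.const []))))
  refine Poly.pair (Poly.cons h0 (Poly.cons hA (Poly.cons hB (Poly.cons hC (Poly.const []))))) ?_
  exact Poly.cons (poly_rE hA) (Poly.cons (poly_rE hB) (Poly.cons (poly_rE hC)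
    (Poly.cons hT (Poly.cons (poly_rH hC) (Poly.const [])))))

theorem poly_mulC (hV : Poly V) (hu : Poly u) (hv : Poly v) (hw : Poly w) :
    Poly (fun a => mulC (ixOf (V a)) (u a) (v a) (w a)) := by
  have h0 : Poly (fun _ : α => (0 : ℕ)) := Poly.const 0
  have h1 : Poly (fun _ : α => (1 : ℕ)) := Poly.const 1
  have hM := poly_rM hV hu hv
  have hQ := poly_rQ hV hu hw
  have hA := poly_cA hV hu
  have hB := poly_cB hV hv
  have hD := poly_cD hV hw
  have hPB := poly_rP hB
  have hPD := poly_rP hD
  refine Poly.append (poly_varC hV hu) (Poly.append (poly_varC hV hv)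
    (Poly.append (poly_varC hV hw) ?_))
  refine Poly.cons (poly_unitC h0 hPB) (Poly.cons (poly_unitC h1 hPB) (Poly.cons
    (poly_unitC hB hPB) (Poly.cons (poly_unitC h0 hPD) (Poly.cons (poly_unitC h1 hPD) (Poly.cons
    (poly_unitC hD hPD) (Poly.cons (poly_unitC h0 hM) (Poly.cons (poly_unitC hA hM) (Poly.cons
    (poly_tieC hB hM) (Poly.cons (poly_unitC h0 hQ) (Poly.cons (poly_tieC hA hQ) (Poly.cons
    (poly_tieC hD hQ) (Poly.cons ?_ (Poly.const [])))))))))))))
  refine Poly.pair (Poly.cons h0 (Poly.cons hA (Poly.cons hB (Poly.cons hD (Poly.cons h1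
    (Poly.const [])))))) ?_
  exact Poly.cons (poly_rE h0) (Poly.cons (poly_rE h1) (Poly.cons hPB (Poly.cons hPD
    (Poly.cons hM (Poly.cons hQ (Poly.const []))))))

theorem conC_eq (ix : ℕ → ℕ) (c : ER.Con) : conC ix c = if c.code.1 = 0 then oneC ix c.code.2.1
    else if c.code.1 = 1 then addC ix c.code.2.1 c.code.2.2.1 c.code.2.2.2
    else mulC ix c.code.2.1 c.code.2.2.1 c.code.2.2.2 := by
  cases c <;> rfl

theorem poly_conC {c : α → ER.Con} (hV : Poly V) (hc : Poly c) :
    Poly (fun a => conC (ixOf (V a)) (c a)) := by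
  have h0 : Poly (fun a => (c a).code) := poly_con_code hc
  have d0 : Poly (fun a => decide ((c a).code.1 = 0)) :=
    Poly.decide_eq (Poly.fst h0) (Poly.const 0)
  have d1 : Poly (fun a => decide ((c a).code.1 = 1)) :=
    Poly.decide_eq (Poly.fst h0) (Poly.const 1)
  have e1 := Poly.fst (Poly.snd h0)
  have e2 := Poly.fst (Poly.snd (Poly.snd h0))
  have e3 := Poly.snd (Poly.snd (Poly.snd h0))
  exact (Poly.ite d0 (poly_oneC hV e1) (Poly.ite d1 (poly_addC hV e1 e2 e3)
    (poly_mulC hV e1 e2 e3))).congr fun a => (conC_eq _ _).symm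

theorem poly_colsOf {S : α → List ER.Con} (hS : Poly S) : Poly (fun a => colsOf (S a)) :=
  Poly.flatMap (F := fun a c => conC (ixOf (vsOf (S a))) c) hS
    (poly_conC ((poly_vsOf hS).comp (Poly.fst Poly.id)) (Poly.snd Poly.id))

theorem poly_rowsOf {C : α → List Col} (hC : Poly C) : Poly (fun a => rowsOf (C a)) :=
  (Poly.flatMap (F := fun (_ : α) (c : Col) => c.2) hC (Poly.snd (Poly.snd Poly.id))).congr
    fun _ => rfl

theorem poly_grid {n : α → ℕ} {F : α → ℕ → ℕ → Bool} (hn : UPoly n)
    (hF : Poly (fun q : (α × ℕ) × ℕ => F q.1.1 q.1.2 q.2)) :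
    Poly (fun a => grid (n a) (F a)) :=
  Poly.map (F := fun a i => (List.range (n a)).map fun j => F a i j) hn.range
    (Poly.map (F := fun (p : α × ℕ) j => F p.1 p.2 j) (hn.range.comp (Poly.fst Poly.id)) hF)

variable {κ P p i c j : α → ℕ} {C : α → List Col}

theorem poly_rsOf (hC : Poly C) (hi : Poly i) : Poly (fun a => rsOf (C a) (i a)) :=
  Poly.snd (Poly.getD (poly_rowsOf hC) hi (Poly.const (0, [])))

theorem poly_csOf (hC : Poly C) (hj : Poly j) : Poly (fun a => csOf (C a) (j a)) :=
  Poly.fst (Poly.getD hC hj (Poly.const ([], [])))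

theorem poly_lkOf (hC : Poly C) (hi : Poly i) (hj : Poly j) :
    Poly (fun a => lkOf (C a) (i a) (j a)) :=
  (Poly.decide_mem (Poly.getD (poly_rowsOf hC) hi (Poly.const (0, [])))
    (Poly.snd (Poly.getD hC hj (Poly.const ([], []))))).congr fun _ => decide_eq_decide.2 Iff.rfl

theorem poly_al (hp : Poly p) (hC : Poly C) (hi : Poly i) (hj : Poly j) :
    Poly (fun a => al (p a) (lkOf (C a)) (i a) (j a)) := by
  refine Poly.and ?_ (Poly.not (Poly.and (Poly.decide_lt hi hp) (Poly.and (Poly.decide_le hp hj)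
    (poly_lkOf hC hi (Poly.sub hj hp)))))
  exact (Poly.not (Poly.decide_eq hi hj)).congr fun a => by simp

theorem poly_aPat (hκ : Poly κ) (hP : Poly P) (hp : Poly p) (hC : Poly C) (hi : Poly i)
    (hc : Poly c) :
    Poly (fun a => aPat (κ a) (P a) (p a) (rsOf (C a)) (lkOf (C a)) (i a) (c a)) := by
  have ht : Poly (fun a => c a - (1 + κ a)) := Poly.sub hc (Poly.add (Poly.const 1) hκ)
  refine Poly.or (Poly.decide_le hP hi) (Poly.or (Poly.decide_eq hc (Poly.const 0)) (Poly.or ?_ ?_))
  · exact Poly.and (Poly.decide_le hc hκ) (Poly.and (Poly.decide_lt hi hp)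
      (Poly.decide_mem (Poly.sub hc (Poly.const 1)) (poly_rsOf hC hi)))
  · exact Poly.and (Poly.decide_lt hκ hc) (Poly.and (Poly.decide_eq (Poly.div ht hP) hi)
      (poly_al hp hC hi (Poly.mod ht hP)))

theorem poly_bPat (hκ : Poly κ) (hP : Poly P) (hp : Poly p) (hC : Poly C) (hc : Poly c)
    (hj : Poly j) :
    Poly (fun a => bPat (κ a) (P a) (p a) (csOf (C a)) (lkOf (C a)) (c a) (j a)) := by
  have ht : Poly (fun a => c a - (1 + κ a)) := Poly.sub hc (Poly.add (Poly.const 1) hκ)
  refine Poly.or (Poly.decide_le hP hj) (Poly.or (Poly.decide_eq hc (Poly.const 0)) (Poly.or ?_ ?_))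
  · exact Poly.and (Poly.decide_le hc hκ) (Poly.and (Poly.decide_le hp hj)
      (Poly.decide_mem (Poly.sub hc (Poly.const 1)) (poly_csOf hC (Poly.sub hj hp))))
  · exact Poly.and (Poly.decide_lt hκ hc) (Poly.and (Poly.decide_eq (Poly.mod ht hP) hj)
      (poly_al hp hC (Poly.div ht hP) hj))

theorem upoly_kOf {S : α → List ER.Con} (hS : Poly S) : UPoly (fun a => kOf (S a)) :=
  UPoly.add (UPoly.mul (UPoly.const 3) (UPoly.length (poly_vsOf hS))) (UPoly.const 5)

theorem upoly_p {S : α → List ER.Con} (hS : Poly S) :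
    UPoly (fun a => (rowsOf (colsOf (S a))).length) :=
  UPoly.length (poly_rowsOf (poly_colsOf hS))

theorem upoly_P {S : α → List ER.Con} (hS : Poly S) :
    UPoly (fun a => (rowsOf (colsOf (S a))).length + (colsOf (S a)).length) :=
  UPoly.add (upoly_p hS) (UPoly.length (poly_colsOf hS))

theorem upoly_nOf {S : α → List ER.Con} (hS : Poly S) : UPoly (fun a => nOf (S a)) :=
  UPoly.add (UPoly.add (UPoly.const 1) (upoly_kOf hS)) (UPoly.mul (upoly_P hS) (upoly_P hS))

theorem poly_cinst {S : α → List ER.Con} (hS : Poly S) : Poly (fun a => cinst (S a)) := by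
  have hκ := (upoly_kOf hS).toPoly
  have hP := (upoly_P hS).toPoly
  have hp := (upoly_p hS).toPoly
  have hC := poly_colsOf hS
  have q1 : Poly (fun q : (α × ℕ) × ℕ => q.1.1) := Poly.fst (Poly.fst Poly.id)
  have q2 : Poly (fun q : (α × ℕ) × ℕ => q.1.2) := Poly.snd (Poly.fst Poly.id)
  have q3 : Poly (fun q : (α × ℕ) × ℕ => q.2) := Poly.snd Poly.id
  refine Poly.pair (poly_grid (upoly_nOf hS) ?_) (poly_grid (upoly_nOf hS) ?_)
  · exact poly_aPat (hκ.comp q1) (hP.comp q1) (hp.comp q1) (hC.comp q1) q2 q3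
  · exact poly_bPat (hκ.comp q1) (hP.comp q1) (hp.comp q1) (hC.comp q1) q2 q3

end

/-- Constrained matrix invertibility over the reals is `∃ℝ`-hard. -/
theorem cmi_hard : ERHard (lang CMI) :=
  ERHard.of_sys (poly_cinst Poly.id) sat_iff_cmi

end Pool.Agent.NPC.R537CM
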