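import Pool.Agent.R537.CM.Main
import Pool.Agent.ER.Build
import Pool.Agent.ER.Rat
import Pool.Agent.ER.Dec
import Pool.Agent.H670R2.ERMem

/-!
# Membership of constrained matrix invertibility in `∃ℝ`
-/

set_option autoImplicit false

namespace Pool.Agent.NPC.R537CM

open Pool.Agent.NPC Pool.Agent.NPC.ER Pool.Agent.NPC.H670R2

/-- The index of the variable for the entry of the left matrix. -/
def iA (n i j : ℕ) : ℕ := 2 * (i * n + j)
/-- The index of the variable for the entry of the right matrix. -/
def iB (n i j : ℕ) : ℕ := 2 * (i * n + j) + 1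

/-- The formulas which force zeros. -/
def fitF (n : ℕ) (P : Pat) (o : ℕ) : List Fm :=
  (List.range n).flatMap fun i => (List.range n).flatMap fun j =>
    bif P.entry i j then [] else [Fm.eq (Tm.var (2 * (i * n + j) + o)) Tm.zero]

/-- The formulas for the product. -/
def prodF (n : ℕ) : List Fm :=
  (List.range n).flatMap fun i => (List.range n).map fun j =>
    Fm.eq (sumTm ((List.range n).map fun k =>
      Tm.mul (Tm.var (2 * (i * n + k))) (Tm.var (2 * (k * n + j) + 1))))
      (bif decide (i = j) then Tm.one else Tm.zero)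

/-- Both patterns are square of the same size. -/
def sqB (I : Pat × Pat) : Bool :=
  (I.1.all fun r => decide (r.length = I.1.length)) &&
    (decide (I.2.length = I.1.length) && I.2.all fun r => decide (r.length = I.1.length))

theorem sqB_iff (I : Pat × Pat) :
    sqB I = true ↔ I.1.IsSquare I.1.length ∧ I.2.IsSquare I.1.length := by
  unfold sqB Pat.IsSquare
  simp only [Bool.and_eq_true, List.all_eq_true, decide_eq_true_eq, true_and]

/-- The formula of an instance. -/
def fCmi (I : Pat × Pat) : Fm :=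
  bif sqB I then conj (fitF I.1.length I.1 0 ++ (fitF I.1.length I.2 1 ++ prodF I.1.length))
  else H670R2.ff

theorem holds_fitF {n : ℕ} {P : Pat} {o : ℕ} {v : ℕ → ℝ} :
    (∀ φ ∈ fitF n P o, φ.Holds v) ↔
      ∀ i < n, ∀ j < n, P.entry i j = false → v (2 * (i * n + j) + o) = 0 := by
  unfold fitF
  simp only [List.forall_mem_flatMap, List.mem_range]
  refine forall_congr' fun i => forall_congr' fun _ => forall_congr' fun j =>
    forall_congr' fun _ => ?_
  cases P.entry i j <;> simp [Fm.Holds, Tm.eval]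

theorem sum_map_range (n : ℕ) (f : ℕ → ℝ) :
    ((List.range n).map f).sum = ∑ k ∈ Finset.range n, f k := by
  induction n with
  | zero => simp
  | succ n ih => rw [List.range_succ, Finset.sum_range_succ, ← ih]; simp

theorem holds_prodF {n : ℕ} {v : ℕ → ℝ} :
    (∀ φ ∈ prodF n, φ.Holds v) ↔
      ∀ i < n, ∀ j < n, ∑ k ∈ Finset.range n, v (2 * (i * n + k)) * v (2 * (k * n + j) + 1) =
        if i = j then 1 else 0 := by
  unfold prodF
  simp only [List.forall_mem_flatMap, List.forall_mem_map, List.mem_range]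
  refine forall_congr' fun i => forall_congr' fun _ => forall_congr' fun j =>
    forall_congr' fun _ => ?_
  have h : (Tm.eval v (bif decide (i = j) then Tm.one else Tm.zero)) = if i = j then 1 else 0 := by
    by_cases hij : i = j <;> simp [hij, Tm.eval]
  simp only [Fm.Holds, eval_sumTm, List.map_map, h]
  have h2 : (Tm.eval v ∘ fun k => Tm.mul (Tm.var (2 * (i * n + k))) (Tm.var (2 * (k * n + j) + 1)))
      = fun k => v (2 * (i * n + k)) * v (2 * (k * n + j) + 1) := by
    funext k
    simp [Tm.eval]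
  rw [h2, sum_map_range]

theorem div_mod_aux {n i j : ℕ} (hj : j < n) : (i * n + j) / n = i ∧ (i * n + j) % n = j := by
  constructor
  · rw [mul_comm, Nat.mul_add_div (by omega), Nat.div_eq_of_lt hj, add_zero]
  · rw [mul_comm, Nat.mul_add_mod, Nat.mod_eq_of_lt hj]

theorem cmi_iff_etr (I : Pat × Pat) : CMI I ↔ ETR (fCmi I) := by
  unfold fCmi
  by_cases hs : sqB I = true
  · rw [hs, cond_true]
    obtain ⟨h1, h2⟩ := (sqB_iff I).1 hs
    set n := I.1.length with hn
    have key : ∀ v : ℕ → ℝ, (conj (fitF n I.1 0 ++ (fitF n I.2 1 ++ prodF n))).Holds v ↔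
        (∀ i < n, ∀ j < n, I.1.entry i j = false → v (2 * (i * n + j)) = 0) ∧
        (∀ i < n, ∀ j < n, I.2.entry i j = false → v (2 * (i * n + j) + 1) = 0) ∧
        ∀ i < n, ∀ j < n, ∑ k ∈ Finset.range n, v (2 * (i * n + k)) * v (2 * (k * n + j) + 1) =
          if i = j then 1 else 0 := by
      intro v
      rw [holds_conj, List.forall_mem_append, List.forall_mem_append, holds_fitF, holds_fitF,
        holds_prodF]
      rfl
    unfold ETR
    simp_rw [key]
    constructor
    · rintro ⟨m, hm, -, A, B, hA, hB, hAB⟩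
      have hmn : m = n := hm.1.symm
      subst hmn
      let a : ℕ → ℕ → ℝ := fun i j => if h : i < n ∧ j < n then A ⟨i, h.1⟩ ⟨j, h.2⟩ else 0
      let b : ℕ → ℕ → ℝ := fun i j => if h : i < n ∧ j < n then B ⟨i, h.1⟩ ⟨j, h.2⟩ else 0
      let v : ℕ → ℝ := fun k => if k % 2 = 0 then a (k / 2 / n) (k / 2 % n)
        else b (k / 2 / n) (k / 2 % n)
      have hv0 : ∀ i, ∀ j < n, v (2 * (i * n + j)) = a i j := by
        intro i j hj
        simp only [v]
        have e : 2 * (i * n + j) / 2 = i * n + j := by omega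
        rw [if_pos (by omega), e, (div_mod_aux hj).1, (div_mod_aux hj).2]
      have hv1 : ∀ i, ∀ j < n, v (2 * (i * n + j) + 1) = b i j := by
        intro i j hj
        simp only [v]
        have e : (2 * (i * n + j) + 1) / 2 = i * n + j := by omega
        rw [if_neg (by omega), e, (div_mod_aux hj).1, (div_mod_aux hj).2]
      refine ⟨v, ?_, ?_, ?_⟩
      · intro i hi j hj hij
        rw [hv0 i j hj]
        simp only [a]
        rw [dif_pos ⟨hi, hj⟩]
        exact hA _ _ hij
      · intro i hi j hj hij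
        rw [hv1 i j hj]
        simp only [b]
        rw [dif_pos ⟨hi, hj⟩]
        exact hB _ _ hij
      · intro i hi j hj
        have h3 := congrFun (congrFun hAB ⟨i, hi⟩) ⟨j, hj⟩
        rw [Matrix.mul_apply, Matrix.one_apply] at h3
        simp only [Fin.mk.injEq] at h3
        rw [← h3, ← Fin.sum_univ_eq_sum_range
          (fun k => v (2 * (i * n + k)) * v (2 * (k * n + j) + 1))]
        refine Finset.sum_congr rfl fun k _ => ?_
        rw [hv0 i k k.2, hv1 k j hj]
        simp only [a, b]
        rw [dif_pos ⟨hi, k.2⟩, dif_pos ⟨k.2, hj⟩]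
    · rintro ⟨v, hA, hB, hAB⟩
      refine ⟨n, h1, h2, Matrix.of fun i j => v (2 * (i * n + j)),
        Matrix.of fun i j => v (2 * (i * n + j) + 1), ?_, ?_, ?_⟩
      · intro i j hij
        exact hA i i.2 j j.2 hij
      · intro i j hij
        exact hB i i.2 j j.2 hij
      · ext i j
        rw [Matrix.mul_apply, Matrix.one_apply]
        have h3 := hAB i i.2 j j.2
        rw [← Fin.sum_univ_eq_sum_range
          (fun k => v (2 * (i * n + k)) * v (2 * (k * n + j) + 1))] at h3
        simp only [Matrix.of_apply, Fin.ext_iff]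
        exact h3
  · have h' : sqB I = false := by simpa using hs
    rw [h', cond_false]
    constructor
    · rintro ⟨m, h1, h2, -⟩
      exfalso
      apply hs
      rw [sqB_iff]
      have hm : I.1.length = m := h1.1
      rw [hm]
      exact ⟨h1, h2⟩
    · intro h2
      exact absurd h2 not_etr_ff

section

variable {α : Type} [TEnc α]

theorem poly_entry {P : α → Pat} {i j : α → ℕ} (hP : Poly P) (hi : Poly i) (hj : Poly j) :
    Poly (fun a => (P a).entry (i a) (j a)) :=
  Poly.getD (Poly.getD hP hi (Poly.const [])) hj (Poly.const false)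

theorem poly_fitF {n : α → ℕ} {P : α → Pat} (o : ℕ) (hn : UPoly n) (hP : Poly P) :
    Poly (fun a => fitF (n a) (P a) o) := by
  refine Poly.flatMap (F := fun a i => (List.range (n a)).flatMap fun j =>
    bif (P a).entry i j then [] else [Fm.eq (Tm.var (2 * (i * (n a) + j) + o)) Tm.zero])
    hn.range ?_
  refine Poly.flatMap (F := fun (p : α × ℕ) j =>
    bif (P p.1).entry p.2 j then [] else [Fm.eq (Tm.var (2 * (p.2 * (n p.1) + j) + o)) Tm.zero])
    (hn.range.comp (Poly.fst Poly.id)) ?_
  have q1 : Poly (fun q : (α × ℕ) × ℕ => q.1.1) := Poly.fst (Poly.fst Poly.id)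
  have q2 : Poly (fun q : (α × ℕ) × ℕ => q.1.2) := Poly.snd (Poly.fst Poly.id)
  have q3 : Poly (fun q : (α × ℕ) × ℕ => q.2) := Poly.snd Poly.id
  refine Poly.cond (poly_entry (hP.comp q1) q2 q3) (Poly.const _) (Poly.cons (poly_eq (poly_tvar
    (Poly.add (Poly.mul (Poly.const 2) (Poly.add (Poly.mul q2 (hn.toPoly.comp q1)) q3))
      (Poly.const o))) (Poly.const _)) (Poly.const _))

theorem poly_prodF {n : α → ℕ} (hn : UPoly n) : Poly (fun a => prodF (n a)) := by
  refine Poly.flatMap (F := fun a i => (List.range (n a)).map fun j =>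
    Fm.eq (sumTm ((List.range (n a)).map fun k =>
      Tm.mul (Tm.var (2 * (i * (n a) + k))) (Tm.var (2 * (k * (n a) + j) + 1))))
      (bif decide (i = j) then Tm.one else Tm.zero)) hn.range ?_
  refine Poly.map (F := fun (p : α × ℕ) j =>
    Fm.eq (sumTm ((List.range (n p.1)).map fun k =>
      Tm.mul (Tm.var (2 * (p.2 * (n p.1) + k))) (Tm.var (2 * (k * (n p.1) + j) + 1))))
      (bif decide (p.2 = j) then Tm.one else Tm.zero)) (hn.range.comp (Poly.fst Poly.id)) ?_
  have q1 : Poly (fun q : (α × ℕ) × ℕ => q.1.1) := Poly.fst (Poly.fst Poly.id)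
  have q2 : Poly (fun q : (α × ℕ) × ℕ => q.1.2) := Poly.snd (Poly.fst Poly.id)
  have q3 : Poly (fun q : (α × ℕ) × ℕ => q.2) := Poly.snd Poly.id
  refine poly_eq (poly_sumTm ?_) (Poly.cond (Poly.decide_eq q2 q3) (Poly.const _) (Poly.const _))
  refine Poly.map (F := fun (q : (α × ℕ) × ℕ) k =>
    Tm.mul (Tm.var (2 * (q.1.2 * (n q.1.1) + k))) (Tm.var (2 * (k * (n q.1.1) + q.2) + 1)))
    (hn.range.comp q1) ?_
  have r1 : Poly (fun q : ((α × ℕ) × ℕ) × ℕ => q.1.1.1) := q1.comp (Poly.fst Poly.id)
  have r2 : Poly (fun q : ((α × ℕ) × ℕ) × ℕ => q.1.1.2) := q2.comp (Poly.fst Poly.id)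
  have r3 : Poly (fun q : ((α × ℕ) × ℕ) × ℕ => q.1.2) := q3.comp (Poly.fst Poly.id)
  have r4 : Poly (fun q : ((α × ℕ) × ℕ) × ℕ => q.2) := Poly.snd Poly.id
  exact poly_tmul (poly_tvar (Poly.mul (Poly.const 2) (Poly.add (Poly.mul r2
    (hn.toPoly.comp r1)) r4))) (poly_tvar (Poly.succ (Poly.mul (Poly.const 2) (Poly.add
    (Poly.mul r4 (hn.toPoly.comp r1)) r3))))

end

theorem poly_sqB : Poly sqB := by
  have h1 : Poly (fun I : Pat × Pat => I.1) := Poly.fst Poly.id
  have h2 : Poly (fun I : Pat × Pat => I.2) := Poly.snd Poly.id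
  refine Poly.and ?_ (Poly.and (Poly.decide_eq (Poly.length h2) (Poly.length h1)) ?_)
  · exact Poly.all (p := fun (I : Pat × Pat) (r : List Bool) => decide (r.length = I.1.length)) h1
      (Poly.decide_eq (Poly.length (Poly.snd Poly.id)) (Poly.length (h1.comp (Poly.fst Poly.id))))
  · exact Poly.all (p := fun (I : Pat × Pat) (r : List Bool) => decide (r.length = I.1.length)) h2
      (Poly.decide_eq (Poly.length (Poly.snd Poly.id)) (Poly.length (h1.comp (Poly.fst Poly.id))))

theorem poly_fCmi : Poly fCmi := by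
  have h1 : Poly (fun I : Pat × Pat => I.1) := Poly.fst Poly.id
  have h2 : Poly (fun I : Pat × Pat => I.2) := Poly.snd Poly.id
  have hn : UPoly (fun I : Pat × Pat => I.1.length) := UPoly.length h1
  exact Poly.cond poly_sqB (poly_conj (Poly.append (poly_fitF 0 hn h1)
    (Poly.append (poly_fitF 1 hn h2) (poly_prodF hn)))) (Poly.const _)

/-- Constrained matrix invertibility over the reals belongs to `∃ℝ`. -/
theorem cmi_mem : InER (lang CMI) := H670R2.InER.of_poly poly_fCmi cmi_iff_etr

end Pool.Agent.NPC.R537CM
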