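import Pool.Agent.R537.CM.Fit
import Pool.Agent.ER.ToSys

/-!
# From systems of equations to prescribed inner products
-/

set_option autoImplicit false

namespace Pool.Agent.NPC.R537CM

open Pool.Agent.NPC Pool.Agent.NPC.ER Finset

/-- A row vector is described by a tag and its support. -/
abbrev Row : Type := ℕ × List ℕ

/-- A column vector is described by its support and the list of the rows linked to it. -/
abbrev Col : Type := List ℕ × List Row

/-- The inner product of a row and a column. -/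
noncomputable def dot (X : Row → ℕ → ℝ) (s : List ℕ) (y : ℕ → ℝ) (r : Row) : ℝ :=
  ∑ k ∈ s.toFinset.filter (fun k => k ∈ r.2), X r k * y k

/-- The column `c` exists for the rows `X`. -/
def ColOk (X : Row → ℕ → ℝ) (c : Col) : Prop := ∃ y : ℕ → ℝ, ∀ r ∈ c.2, dot X c.1 y r = -1

/-- Row vectors `X` and column vectors exist. -/
def PF (C : List Col) : Prop := ∃ X : Row → ℕ → ℝ, ∀ c ∈ C, ColOk X c

/-- The rows. -/
def rowsOf (C : List Col) : List Row := C.flatMap Prod.snd

/-- The support of the `i`-th row. -/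
def rsOf (C : List Col) (i : ℕ) : List ℕ := ((rowsOf C).getD i (0, [])).2

/-- The support of the `j`-th column. -/
def csOf (C : List Col) (j : ℕ) : List ℕ := (C.getD j ([], [])).1

/-- The links. -/
def lkOf (C : List Col) (i j : ℕ) : Bool :=
  decide ((rowsOf C).getD i (0, []) ∈ (C.getD j ([], [])).2)

theorem pf_iff_pos {κ : ℕ} {C : List Col} (hκ : ∀ c ∈ C, ∀ k ∈ c.1, k < κ) :
    PF C ↔ PFpos κ (rowsOf C).length C.length (rsOf C) (csOf C) (lkOf C) := by
  constructor
  · rintro ⟨X, hX⟩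
    have h : ∀ j : ℕ, ∃ y : ℕ → ℝ, j < C.length → ∀ r ∈ (C.getD j ([], [])).2,
        dot X (C.getD j ([], [])).1 y r = -1 := by
      intro j
      by_cases hj : j < C.length
      · obtain ⟨y, hy⟩ := hX (C.getD j ([], [])) (by
          rw [List.getD_eq_getElem _ _ hj]; exact List.getElem_mem _)
        exact ⟨y, fun _ => hy⟩
      · exact ⟨0, fun h => absurd h hj⟩
    choose Y hY using h
    refine ⟨fun i => X ((rowsOf C).getD i (0, [])), Y, ?_⟩
    intro i hi j hj hl
    rw [lkOf, decide_eq_true_eq] at hl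
    rw [← hY j hj _ hl]
    unfold dot
    refine Finset.sum_congr ?_ fun k _ => rfl
    ext k
    rw [Finset.mem_filter, Finset.mem_filter, Finset.mem_range, List.mem_toFinset]
    unfold rsOf csOf
    constructor
    · rintro ⟨-, h1, h2⟩; exact ⟨h2, h1⟩
    · rintro ⟨h2, h1⟩
      refine ⟨?_, h1, h2⟩
      have hc : C.getD j ([], []) ∈ C := by
        rw [List.getD_eq_getElem _ _ hj]; exact List.getElem_mem _
      exact hκ _ hc k h2
  · rintro ⟨X, Y, hXY⟩
    refine ⟨fun r => X ((rowsOf C).idxOf r), ?_⟩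
    intro c hc
    obtain ⟨j, hj, rfl⟩ := List.getElem_of_mem hc
    refine ⟨Y j, fun r hr => ?_⟩
    have hrR : r ∈ rowsOf C := List.mem_flatMap.2 ⟨_, hc, hr⟩
    have hi : (rowsOf C).idxOf r < (rowsOf C).length := List.idxOf_lt_length_iff.2 hrR
    have hget : (rowsOf C).getD ((rowsOf C).idxOf r) (0, []) = r := by
      rw [List.getD_eq_getElem _ _ hi]
      exact List.getElem_idxOf hi
    have hgc : C.getD j ([], []) = C[j] := List.getD_eq_getElem _ _ hj
    have h := hXY _ hi j hj (by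
      rw [lkOf, decide_eq_true_eq, hget, hgc]; exact hr)
    rw [← h]
    unfold dot
    refine Finset.sum_congr ?_ fun k _ => rfl
    ext k
    rw [Finset.mem_filter, Finset.mem_filter, Finset.mem_range, List.mem_toFinset]
    unfold rsOf csOf
    rw [hget, hgc]
    constructor
    · rintro ⟨h2, h1⟩; exact ⟨hκ _ hc k h2, h1, h2⟩
    · rintro ⟨-, h1, h2⟩; exact ⟨h2, h1⟩

/-! ### The gadgets -/

/-- The first coordinate of a variable. -/
def cA (ix : ℕ → ℕ) (v : ℕ) : ℕ := 3 * ix v + 2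
/-- The second coordinate of a variable. -/
def cB (ix : ℕ → ℕ) (v : ℕ) : ℕ := 3 * ix v + 3
/-- The third coordinate of a variable. -/
def cD (ix : ℕ → ℕ) (v : ℕ) : ℕ := 3 * ix v + 4

/-- The unit row. -/
def rE (k : ℕ) : Row := (0, [k])
/-- The row carrying the value at the coordinate `z`. -/
def rH (z : ℕ) : Row := (1, [0, z])

/-- A column forcing an entry of the row `r` to be one. -/
def unitC (k : ℕ) (r : Row) : Col := ([k], [rE k, r])
/-- A column forcing an entry of the row `r` to be the value. -/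
def tieC (z : ℕ) (r : Row) : Col := ([0, z], [rE z, rH z, r])

/-- The columns for a variable. -/
def varC (ix : ℕ → ℕ) (v : ℕ) : List Col :=
  [([0, cA ix v, cB ix v, cD ix v],
      [rE (cA ix v), rE (cB ix v), rE (cD ix v), rH (cA ix v), rH (cB ix v), rH (cD ix v)]),
    unitC 0 (rH (cA ix v)), unitC 0 (rH (cB ix v)), unitC 0 (rH (cD ix v))]

/-- The row of a sum. -/
def rT (ix : ℕ → ℕ) (u v : ℕ) : Row := (1, [0, cA ix u, cB ix v])
/-- The rows of a product. -/
def rP (z : ℕ) : Row := (0, [0, z, 1])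
/-- The rows of a product. -/
def rM (ix : ℕ → ℕ) (u v : ℕ) : Row := (2, [0, cA ix u, cB ix v])
/-- The rows of a product. -/
def rQ (ix : ℕ → ℕ) (u w : ℕ) : Row := (1, [0, cA ix u, cD ix w])

/-- The columns of the constraint `v = 1`. -/
def oneC (ix : ℕ → ℕ) (v : ℕ) : List Col := varC ix v ++ [unitC (cA ix v) (rH (cA ix v))]

/-- The columns of the constraint `u + v = w`. -/
def addC (ix : ℕ → ℕ) (u v w : ℕ) : List Col :=
  varC ix u ++ (varC ix v ++ (varC ix w ++
    [unitC 0 (rT ix u v), tieC (cA ix u) (rT ix u v), tieC (cB ix v) (rT ix u v),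
      ([0, cA ix u, cB ix v, cA ix w],
        [rE (cA ix u), rE (cB ix v), rE (cA ix w), rT ix u v, rH (cA ix w)])]))

/-- The columns of the constraint `u v = w`. -/
def mulC (ix : ℕ → ℕ) (u v w : ℕ) : List Col :=
  varC ix u ++ (varC ix v ++ (varC ix w ++
    [unitC 0 (rP (cB ix v)), unitC 1 (rP (cB ix v)), unitC (cB ix v) (rP (cB ix v)),
      unitC 0 (rP (cD ix w)), unitC 1 (rP (cD ix w)), unitC (cD ix w) (rP (cD ix w)),
      unitC 0 (rM ix u v), unitC (cA ix u) (rM ix u v), tieC (cB ix v) (rM ix u v),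
      unitC 0 (rQ ix u w), tieC (cA ix u) (rQ ix u w), tieC (cD ix w) (rQ ix u w),
      ([0, cA ix u, cB ix v, cD ix w, 1],
        [rE 0, rE 1, rP (cB ix v), rP (cD ix w), rM ix u v, rQ ix u w])]))

/-- The columns of a constraint. -/
def conC (ix : ℕ → ℕ) : Con → List Col
  | ER.Con.one v => oneC ix v
  | ER.Con.add u v w => addC ix u v w
  | ER.Con.mul u v w => mulC ix u v w

/-! ### Evaluating inner products -/

theorem dot_sub {X : Row → ℕ → ℝ} {s : List ℕ} {y : ℕ → ℝ} {r : Row} (h : ∀ k ∈ r.2, k ∈ s)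
    (hn : r.2.Nodup) : dot X s y r = (r.2.map fun k => X r k * y k).sum := by
  rw [← List.sum_toFinset _ hn]
  unfold dot
  refine Finset.sum_congr ?_ fun k _ => rfl
  ext k
  simp only [Finset.mem_filter, List.mem_toFinset]
  exact ⟨fun h' => h'.2, fun h' => ⟨h k h', h'⟩⟩

theorem dot_sup {X : Row → ℕ → ℝ} {s : List ℕ} {y : ℕ → ℝ} {r : Row} (h : ∀ k ∈ s, k ∈ r.2)
    (hn : s.Nodup) : dot X s y r = (s.map fun k => X r k * y k).sum := by
  rw [← List.sum_toFinset _ hn]
  unfold dot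
  refine Finset.sum_congr ?_ fun k _ => rfl
  ext k
  simp only [Finset.mem_filter, List.mem_toFinset]
  exact ⟨fun h' => h'.1, fun h' => ⟨h', h k h'⟩⟩

theorem dot_rE {X : Row → ℕ → ℝ} {s : List ℕ} {y : ℕ → ℝ} {k : ℕ} (h : k ∈ s) :
    dot X s y (rE k) = X (rE k) k * y k := by
  rw [dot_sub (by simpa [rE] using h) (by simp [rE])]
  simp [rE]

theorem dot_rH {X : Row → ℕ → ℝ} {s : List ℕ} {y : ℕ → ℝ} {z : ℕ} (h0 : 0 ∈ s) (h : z ∈ s)
    (hz : z ≠ 0) : dot X s y (rH z) = X (rH z) 0 * y 0 + X (rH z) z * y z := by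
  rw [dot_sub (by simp only [rH, List.mem_cons, List.not_mem_nil, or_false]; rintro k (rfl | rfl) <;> assumption)
    (by simp [rH, Ne.symm hz])]
  simp [rH]

theorem dot_row3 {X : Row → ℕ → ℝ} {s : List ℕ} {y : ℕ → ℝ} {t a b c : ℕ} (h0 : a ∈ s) (h1 : b ∈ s)
    (h2 : c ∈ s) (hab : a ≠ b) (hac : a ≠ c) (hbc : b ≠ c) :
    dot X s y (t, [a, b, c]) = X (t, [a, b, c]) a * y a + X (t, [a, b, c]) b * y b +
      X (t, [a, b, c]) c * y c := by
  rw [dot_sub (by
    simp only [List.mem_cons, List.not_mem_nil, or_false]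
    rintro k (rfl | rfl | rfl) <;> assumption) (by simp [hab, hac, hbc])]
  simp only [List.map_cons, List.map_nil, List.sum_cons, List.sum_nil]
  ring

theorem dot_one {X : Row → ℕ → ℝ} {y : ℕ → ℝ} {k : ℕ} {r : Row} (h : k ∈ r.2) :
    dot X [k] y r = X r k * y k := by
  rw [dot_sup (by simpa using h) (by simp)]
  simp

theorem dot_two {X : Row → ℕ → ℝ} {y : ℕ → ℝ} {z : ℕ} {r : Row} (h0 : 0 ∈ r.2) (h : z ∈ r.2)
    (hz : z ≠ 0) : dot X [0, z] y r = X r 0 * y 0 + X r z * y z := by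
  rw [dot_sup (by simp only [List.mem_cons, List.not_mem_nil, or_false]; rintro k (rfl | rfl) <;> assumption)
    (by simp [Ne.symm hz])]
  simp

/-! ### Soundness -/

/-- The normalization. -/
def Normal (X : Row → ℕ → ℝ) : Prop := ∀ k, X (rE k) k = 0 ∨ X (rE k) k = 1

theorem normalize {C : List Col} (h : PF C) :
    ∃ X : Row → ℕ → ℝ, Normal X ∧ ∀ c ∈ C, ColOk X c := by
  classical
  obtain ⟨X, hX⟩ := h
  let μ : ℕ → ℝ := fun k => if X (rE k) k = 0 then 1 else X (rE k) k
  have hμ : ∀ k, μ k ≠ 0 := by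
    intro k
    simp only [μ]
    split_ifs with h
    · exact one_ne_zero
    · exact h
  refine ⟨fun r k => X r k / μ k, ?_, ?_⟩
  · intro k
    simp only [μ]
    by_cases h : X (rE k) k = 0
    · left; rw [h, zero_div]
    · right; rw [if_neg h, div_self h]
  · intro c hc
    obtain ⟨y, hy⟩ := hX c hc
    refine ⟨fun k => μ k * y k, fun r hr => ?_⟩
    rw [← hy r hr]
    unfold dot
    refine Finset.sum_congr rfl fun k _ => ?_
    have := hμ k
    field_simp

theorem unit_of_mul {a b : ℝ} (h : a = 0 ∨ a = 1) (hab : a * b = -1) : b = -1 := by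
  rcases h with rfl | rfl
  · simp at hab
  · linarith

theorem unitC_sound {X : Row → ℕ → ℝ} (hN : Normal X) {k : ℕ} {r : Row} (hk : k ∈ r.2)
    (h : ColOk X (unitC k r)) : X r k = 1 := by
  obtain ⟨y, hy⟩ := h
  have h1 := hy (rE k) (by simp [unitC])
  have h2 := hy r (by simp [unitC])
  simp only [unitC] at h1 h2
  rw [dot_rE (by simp)] at h1
  rw [dot_one hk] at h2
  rw [unit_of_mul (hN k) h1] at h2
  linarith

theorem tieC_sound {X : Row → ℕ → ℝ} (hN : Normal X) {z : ℕ} {r : Row} (h0 : 0 ∈ r.2)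
    (hz : z ∈ r.2) (hz0 : z ≠ 0) (h : ColOk X (tieC z r)) (hr : X r 0 = 1)
    (hh : X (rH z) 0 = 1) : X r z = X (rH z) z := by
  obtain ⟨y, hy⟩ := h
  have h1 := hy (rE z) (by simp [tieC])
  have h2 := hy (rH z) (by simp [tieC])
  have h3 := hy r (by simp [tieC])
  simp only [tieC] at h1 h2 h3
  rw [dot_rE (by simp)] at h1
  rw [dot_rH (by simp) (by simp) hz0] at h2
  rw [dot_two h0 hz hz0] at h3
  rw [unit_of_mul (hN z) h1] at h2 h3
  rw [hr] at h3
  rw [hh] at h2
  linarith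

/-- What the columns of a variable say. -/
def VarOk (ix : ℕ → ℕ) (X : Row → ℕ → ℝ) (v : ℕ) : Prop :=
  X (rH (cA ix v)) 0 = 1 ∧ X (rH (cB ix v)) 0 = 1 ∧ X (rH (cD ix v)) 0 = 1 ∧
    X (rH (cB ix v)) (cB ix v) = X (rH (cA ix v)) (cA ix v) ∧
    X (rH (cD ix v)) (cD ix v) = X (rH (cA ix v)) (cA ix v)

theorem varC_sound {ix : ℕ → ℕ} {X : Row → ℕ → ℝ} (hN : Normal X) {v : ℕ}
    (h : ∀ c ∈ varC ix v, ColOk X c) : VarOk ix X v := by
  have h1 : X (rH (cA ix v)) 0 = 1 :=
    unitC_sound hN (by simp [rH]) (h (unitC 0 (rH (cA ix v))) (by simp [varC]))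
  have h2 : X (rH (cB ix v)) 0 = 1 :=
    unitC_sound hN (by simp [rH]) (h (unitC 0 (rH (cB ix v))) (by simp [varC]))
  have h3 : X (rH (cD ix v)) 0 = 1 :=
    unitC_sound hN (by simp [rH]) (h (unitC 0 (rH (cD ix v))) (by simp [varC]))
  obtain ⟨y, hy⟩ := h ([0, cA ix v, cB ix v, cD ix v],
      [rE (cA ix v), rE (cB ix v), rE (cD ix v), rH (cA ix v), rH (cB ix v), rH (cD ix v)])
      (by simp [varC])
  have k1 := hy (rE (cA ix v)) (by simp)
  have k2 := hy (rE (cB ix v)) (by simp)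
  have k3 := hy (rE (cD ix v)) (by simp)
  have k4 := hy (rH (cA ix v)) (by simp)
  have k5 := hy (rH (cB ix v)) (by simp)
  have k6 := hy (rH (cD ix v)) (by simp)
  simp only at k1 k2 k3 k4 k5 k6
  rw [dot_rE (by simp)] at k1 k2 k3
  rw [dot_rH (by simp) (by simp) (by simp [cA])] at k4
  rw [dot_rH (by simp) (by simp) (by simp [cB])] at k5
  rw [dot_rH (by simp) (by simp) (by simp [cD])] at k6
  rw [unit_of_mul (hN _) k1, h1] at k4
  rw [unit_of_mul (hN _) k2, h2] at k5
  rw [unit_of_mul (hN _) k3, h3] at k6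
  exact ⟨h1, h2, h3, by linarith, by linarith⟩

/-- The value of a variable. -/
def valOf (ix : ℕ → ℕ) (X : Row → ℕ → ℝ) (v : ℕ) : ℝ := X (rH (cA ix v)) (cA ix v)

theorem oneC_sound {ix : ℕ → ℕ} {X : Row → ℕ → ℝ} (hN : Normal X) {v : ℕ}
    (h : ∀ c ∈ oneC ix v, ColOk X c) : valOf ix X v = 1 :=
  unitC_sound hN (by simp [rH]) (h (unitC (cA ix v) (rH (cA ix v))) (by simp [oneC]))

theorem cAB (ix : ℕ → ℕ) (u v : ℕ) : cA ix u ≠ cB ix v := by simp only [cA, cB]; omega
theorem cAD (ix : ℕ → ℕ) (u v : ℕ) : cA ix u ≠ cD ix v := by simp only [cA, cD]; omega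
theorem cBD (ix : ℕ → ℕ) (u v : ℕ) : cB ix u ≠ cD ix v := by simp only [cB, cD]; omega
theorem cA0 (ix : ℕ → ℕ) (u : ℕ) : cA ix u ≠ 0 := by simp only [cA]; omega
theorem cB0 (ix : ℕ → ℕ) (u : ℕ) : cB ix u ≠ 0 := by simp only [cB]; omega
theorem cD0 (ix : ℕ → ℕ) (u : ℕ) : cD ix u ≠ 0 := by simp only [cD]; omega
theorem cA1 (ix : ℕ → ℕ) (u : ℕ) : cA ix u ≠ 1 := by simp only [cA]; omega
theorem cB1 (ix : ℕ → ℕ) (u : ℕ) : cB ix u ≠ 1 := by simp only [cB]; omega
theorem cD1 (ix : ℕ → ℕ) (u : ℕ) : cD ix u ≠ 1 := by simp only [cD]; omega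

theorem addC_sound {ix : ℕ → ℕ} {X : Row → ℕ → ℝ} (hN : Normal X) {u v w : ℕ}
    (h : ∀ c ∈ addC ix u v w, ColOk X c) : valOf ix X u + valOf ix X v = valOf ix X w := by
  have hu := varC_sound hN (ix := ix) (v := u) fun c hc => h c (by simp [addC, hc])
  have hv := varC_sound hN (ix := ix) (v := v) fun c hc => h c (by simp [addC, hc])
  have hw := varC_sound hN (ix := ix) (v := w) fun c hc => h c (by simp [addC, hc])
  have h1 : X (rT ix u v) 0 = 1 :=
    unitC_sound hN (by simp [rT]) (h (unitC 0 (rT ix u v)) (by simp [addC]))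
  have h2 : X (rT ix u v) (cA ix u) = valOf ix X u :=
    tieC_sound hN (by simp [rT]) (by simp [rT]) (cA0 _ _)
      (h (tieC (cA ix u) (rT ix u v)) (by simp [addC])) h1 hu.1
  have h3 : X (rT ix u v) (cB ix v) = valOf ix X v :=
    (tieC_sound hN (by simp [rT]) (by simp [rT]) (cB0 _ _)
      (h (tieC (cB ix v) (rT ix u v)) (by simp [addC])) h1 hv.2.1).trans hv.2.2.2.1
  obtain ⟨y, hy⟩ := h ([0, cA ix u, cB ix v, cA ix w],
        [rE (cA ix u), rE (cB ix v), rE (cA ix w), rT ix u v, rH (cA ix w)]) (by simp [addC])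
  have k1 := hy (rE (cA ix u)) (by simp)
  have k2 := hy (rE (cB ix v)) (by simp)
  have k3 := hy (rE (cA ix w)) (by simp)
  have k4 := hy (rT ix u v) (by simp)
  have k5 := hy (rH (cA ix w)) (by simp)
  simp only at k1 k2 k3 k4 k5
  rw [dot_rE (by simp)] at k1 k2 k3
  unfold rT at k4 h1 h2 h3
  rw [dot_row3 (by simp) (by simp) (by simp) (cA0 _ _).symm (cB0 _ _).symm (cAB _ _ _)] at k4
  rw [dot_rH (by simp) (by simp) (cA0 _ _), hw.1] at k5
  rw [h1, h2, h3, unit_of_mul (hN _) k1, unit_of_mul (hN _) k2] at k4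
  rw [unit_of_mul (hN _) k3] at k5
  have e : valOf ix X w = X (rH (cA ix w)) (cA ix w) := rfl
  rw [e]
  linarith

theorem mulC_sound {ix : ℕ → ℕ} {X : Row → ℕ → ℝ} (hN : Normal X) {u v w : ℕ}
    (h : ∀ c ∈ mulC ix u v w, ColOk X c) : valOf ix X u * valOf ix X v = valOf ix X w := by
  have hu := varC_sound hN (ix := ix) (v := u) fun c hc => h c (by simp [mulC, hc])
  have hv := varC_sound hN (ix := ix) (v := v) fun c hc => h c (by simp [mulC, hc])
  have hw := varC_sound hN (ix := ix) (v := w) fun c hc => h c (by simp [mulC, hc])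
  have a1 : X (rP (cB ix v)) 0 = 1 :=
    unitC_sound hN (by simp [rP]) (h (unitC 0 (rP (cB ix v))) (by simp [mulC]))
  have a2 : X (rP (cB ix v)) 1 = 1 :=
    unitC_sound hN (by simp [rP]) (h (unitC 1 (rP (cB ix v))) (by simp [mulC]))
  have a3 : X (rP (cB ix v)) (cB ix v) = 1 :=
    unitC_sound hN (by simp [rP]) (h (unitC (cB ix v) (rP (cB ix v))) (by simp [mulC]))
  have b1 : X (rP (cD ix w)) 0 = 1 :=
    unitC_sound hN (by simp [rP]) (h (unitC 0 (rP (cD ix w))) (by simp [mulC]))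
  have b2 : X (rP (cD ix w)) 1 = 1 :=
    unitC_sound hN (by simp [rP]) (h (unitC 1 (rP (cD ix w))) (by simp [mulC]))
  have b3 : X (rP (cD ix w)) (cD ix w) = 1 :=
    unitC_sound hN (by simp [rP]) (h (unitC (cD ix w) (rP (cD ix w))) (by simp [mulC]))
  have c1 : X (rM ix u v) 0 = 1 :=
    unitC_sound hN (by simp [rM]) (h (unitC 0 (rM ix u v)) (by simp [mulC]))
  have c2 : X (rM ix u v) (cA ix u) = 1 :=
    unitC_sound hN (by simp [rM]) (h (unitC (cA ix u) (rM ix u v)) (by simp [mulC]))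
  have c3 : X (rM ix u v) (cB ix v) = valOf ix X v :=
    (tieC_sound hN (by simp [rM]) (by simp [rM]) (cB0 _ _)
      (h (tieC (cB ix v) (rM ix u v)) (by simp [mulC])) c1 hv.2.1).trans hv.2.2.2.1
  have d1 : X (rQ ix u w) 0 = 1 :=
    unitC_sound hN (by simp [rQ]) (h (unitC 0 (rQ ix u w)) (by simp [mulC]))
  have d2 : X (rQ ix u w) (cA ix u) = valOf ix X u :=
    tieC_sound hN (by simp [rQ]) (by simp [rQ]) (cA0 _ _)
      (h (tieC (cA ix u) (rQ ix u w)) (by simp [mulC])) d1 hu.1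
  have d3 : X (rQ ix u w) (cD ix w) = valOf ix X w :=
    (tieC_sound hN (by simp [rQ]) (by simp [rQ]) (cD0 _ _)
      (h (tieC (cD ix w) (rQ ix u w)) (by simp [mulC])) d1 hw.2.2.1).trans hw.2.2.2.2
  obtain ⟨y, hy⟩ := h ([0, cA ix u, cB ix v, cD ix w, 1],
        [rE 0, rE 1, rP (cB ix v), rP (cD ix w), rM ix u v, rQ ix u w]) (by simp [mulC])
  have k1 := hy (rE 0) (by simp)
  have k2 := hy (rE 1) (by simp)
  have k3 := hy (rP (cB ix v)) (by simp)
  have k4 := hy (rP (cD ix w)) (by simp)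
  have k5 := hy (rM ix u v) (by simp)
  have k6 := hy (rQ ix u w) (by simp)
  simp only at k1 k2 k3 k4 k5 k6
  rw [dot_rE (by simp)] at k1 k2
  unfold rP at k3 k4 a1 a2 a3 b1 b2 b3
  unfold rM at k5 c1 c2 c3
  unfold rQ at k6 d1 d2 d3
  rw [dot_row3 (by simp) (by simp) (by simp) (cB0 _ _).symm (by simp) (cB1 _ _)] at k3
  rw [dot_row3 (by simp) (by simp) (by simp) (cD0 _ _).symm (by simp) (cD1 _ _)] at k4
  rw [dot_row3 (by simp) (by simp) (by simp) (cA0 _ _).symm (cB0 _ _).symm (cAB _ _ _)] at k5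
  rw [dot_row3 (by simp) (by simp) (by simp) (cA0 _ _).symm (cD0 _ _).symm (cAD _ _ _)] at k6
  have y0 := unit_of_mul (hN _) k1
  have y1 := unit_of_mul (hN _) k2
  rw [a1, a2, a3, y0, y1] at k3
  rw [b1, b2, b3, y0, y1] at k4
  rw [c1, c2, c3, y0] at k5
  rw [d1, d2, d3, y0] at k6
  have y2 : y (cB ix v) = 1 := by linarith
  have y3 : y (cD ix w) = 1 := by linarith
  rw [y2] at k5
  have y4 : y (cA ix u) = -valOf ix X v := by linarith
  rw [y3, y4] at k6
  linarith

theorem conC_sound {ix : ℕ → ℕ} {X : Row → ℕ → ℝ} (hN : Normal X) {c : Con}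
    (h : ∀ d ∈ conC ix c, ColOk X d) : c.Holds (valOf ix X) := by
  cases c with
  | one v => exact oneC_sound hN h
  | add u v w => exact addC_sound hN h
  | mul u v w => exact mulC_sound hN h

/-! ### Completeness -/

/-- The row vectors for given values of the coordinates. -/
noncomputable def XX (vl : ℕ → ℝ) (r : Row) (k : ℕ) : ℝ :=
  if r.1 = 0 then 1 else if k = 0 then 1 else if r.1 = 1 then vl k else
    if k % 3 = 2 then 1 else vl k

theorem XX0 (vl : ℕ → ℝ) (r : Row) : XX vl r 0 = 1 := by simp [XX]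
theorem XX_rE (vl : ℕ → ℝ) (k : ℕ) : XX vl (rE k) k = 1 := by simp [XX, rE]
theorem XX_rH (vl : ℕ → ℝ) {z : ℕ} (hz : z ≠ 0) : XX vl (rH z) z = vl z := by simp [XX, rH, hz]

theorem unitC_complete {vl : ℕ → ℝ} {k : ℕ} {r : Row} (hk : k ∈ r.2) (h : XX vl r k = 1) :
    ColOk (XX vl) (unitC k r) := by
  refine ⟨fun _ => -1, fun s hs => ?_⟩
  simp only [unitC, List.mem_cons, List.not_mem_nil, or_false] at hs ⊢
  rcases hs with rfl | rfl
  · rw [dot_rE (by simp), XX_rE]; ring
  · rw [dot_one hk, h]; ring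

theorem tieC_complete {vl : ℕ → ℝ} {z : ℕ} {r : Row} (h0 : 0 ∈ r.2)
    (hz : z ∈ r.2) (hz0 : z ≠ 0) (h : XX vl r z = vl z) :
    ColOk (XX vl) (tieC z r) := by
  refine ⟨fun k => if k = 0 then vl z - 1 else -1, fun s hs => ?_⟩
  simp only [tieC, List.mem_cons, List.not_mem_nil, or_false] at hs ⊢
  rcases hs with rfl | rfl | rfl
  · rw [dot_rE (by simp), XX_rE, if_neg hz0]; ring
  · rw [dot_rH (by simp) (by simp) hz0, XX0, XX_rH _ hz0, if_pos rfl, if_neg hz0]; ring
  · rw [dot_two h0 hz hz0, XX0, h, if_pos rfl, if_neg hz0]; ring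

/-- The values of the coordinates are correct for the variable `v`. -/
def VlOk (ix : ℕ → ℕ) (vl x : ℕ → ℝ) (v : ℕ) : Prop :=
  vl (cA ix v) = x v ∧ vl (cB ix v) = x v ∧ vl (cD ix v) = x v

theorem varC_complete {ix : ℕ → ℕ} {vl x : ℕ → ℝ} {v : ℕ} (h : VlOk ix vl x v) :
    ∀ c ∈ varC ix v, ColOk (XX vl) c := by
  intro c hc
  simp only [varC, List.mem_cons, List.not_mem_nil, or_false] at hc
  rcases hc with rfl | rfl | rfl | rfl
  · refine ⟨fun k => if k = 0 then x v - 1 else -1, fun s hs => ?_⟩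
    simp only [List.mem_cons, List.not_mem_nil, or_false] at hs ⊢
    have hA := cA0 ix v
    have hB := cB0 ix v
    have hD := cD0 ix v
    rcases hs with rfl | rfl | rfl | rfl | rfl | rfl
    · rw [dot_rE (by simp), XX_rE, if_neg hA]; ring
    · rw [dot_rE (by simp), XX_rE, if_neg hB]; ring
    · rw [dot_rE (by simp), XX_rE, if_neg hD]; ring
    · rw [dot_rH (by simp) (by simp) hA, XX0, XX_rH _ hA, if_pos rfl, if_neg hA, h.1]; ring
    · rw [dot_rH (by simp) (by simp) hB, XX0, XX_rH _ hB, if_pos rfl, if_neg hB, h.2.1]; ring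
    · rw [dot_rH (by simp) (by simp) hD, XX0, XX_rH _ hD, if_pos rfl, if_neg hD, h.2.2]; ring
  · exact unitC_complete (by simp [rH]) (XX0 _ _)
  · exact unitC_complete (by simp [rH]) (XX0 _ _)
  · exact unitC_complete (by simp [rH]) (XX0 _ _)

theorem oneC_complete {ix : ℕ → ℕ} {vl x : ℕ → ℝ} {v : ℕ} (h : VlOk ix vl x v) (h1 : x v = 1) :
    ∀ c ∈ oneC ix v, ColOk (XX vl) c := by
  intro c hc
  rcases List.mem_append.1 hc with hc | hc
  · exact varC_complete h c hc
  · rw [List.mem_singleton] at hc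
    subst hc
    exact unitC_complete (by simp [rH]) (by rw [XX_rH _ (cA0 _ _), h.1, h1])

theorem XX_one (vl : ℕ → ℝ) {z : ℕ} (l : List ℕ) (hz : z ≠ 0) : XX vl (1, l) z = vl z := by
  simp [XX, hz]

theorem XX_zero (vl : ℕ → ℝ) (z : ℕ) (l : List ℕ) : XX vl (0, l) z = 1 := by
  simp [XX]

theorem XX_twoA (vl : ℕ → ℝ) {z : ℕ} (l : List ℕ) (hz : z % 3 = 2) : XX vl (2, l) z = 1 := by
  simp [XX, hz]

theorem XX_twoB (vl : ℕ → ℝ) {z : ℕ} (l : List ℕ) (hz0 : z ≠ 0) (hz : z % 3 ≠ 2) :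
    XX vl (2, l) z = vl z := by
  simp [XX, hz, hz0]

theorem addC_complete {ix : ℕ → ℕ} {vl x : ℕ → ℝ} {u v w : ℕ} (hu : VlOk ix vl x u)
    (hv : VlOk ix vl x v) (hw : VlOk ix vl x w) (h1 : x u + x v = x w) :
    ∀ c ∈ addC ix u v w, ColOk (XX vl) c := by
  intro c hc
  rcases List.mem_append.1 hc with hc | hc
  · exact varC_complete hu c hc
  rcases List.mem_append.1 hc with hc | hc
  · exact varC_complete hv c hc
  rcases List.mem_append.1 hc with hc | hc
  · exact varC_complete hw c hc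
  have hA := cA0 ix u
  have hB := cB0 ix v
  have hC := cA0 ix w
  simp only [List.mem_cons, List.not_mem_nil, or_false] at hc
  rcases hc with rfl | rfl | rfl | rfl
  · exact unitC_complete (by simp [rT]) (XX0 _ _)
  · exact tieC_complete (by simp [rT]) (by simp [rT]) hA (XX_one _ _ hA)
  · exact tieC_complete (by simp [rT]) (by simp [rT]) hB (XX_one _ _ hB)
  · refine ⟨fun k => if k = 0 then x w - 1 else -1, fun s hs => ?_⟩
    simp only [List.mem_cons, List.not_mem_nil, or_false] at hs ⊢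
    rcases hs with rfl | rfl | rfl | rfl | rfl
    · rw [dot_rE (by simp), XX_rE, if_neg hA]; ring
    · rw [dot_rE (by simp), XX_rE, if_neg hB]; ring
    · rw [dot_rE (by simp), XX_rE, if_neg hC]; ring
    · unfold rT
      rw [dot_row3 (by simp) (by simp) (by simp) hA.symm hB.symm (cAB _ _ _), XX0, XX_one _ _ hA,
        XX_one _ _ hB, if_pos rfl, if_neg hA, if_neg hB, hu.1, hv.2.1]
      linarith
    · rw [dot_rH (by simp) (by simp) hC, XX0, XX_rH _ hC, if_pos rfl, if_neg hC, hw.1]; ring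

theorem mulC_complete {ix : ℕ → ℕ} {vl x : ℕ → ℝ} {u v w : ℕ} (hu : VlOk ix vl x u)
    (hv : VlOk ix vl x v) (hw : VlOk ix vl x w) (h1 : x u * x v = x w) :
    ∀ c ∈ mulC ix u v w, ColOk (XX vl) c := by
  intro c hc
  rcases List.mem_append.1 hc with hc | hc
  · exact varC_complete hu c hc
  rcases List.mem_append.1 hc with hc | hc
  · exact varC_complete hv c hc
  rcases List.mem_append.1 hc with hc | hc
  · exact varC_complete hw c hc
  have hA := cA0 ix u
  have hB := cB0 ix v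
  have hD := cD0 ix w
  have hmA : cA ix u % 3 = 2 := by simp only [cA]; omega
  have hmB : cB ix v % 3 ≠ 2 := by simp only [cB]; omega
  simp only [List.mem_cons, List.not_mem_nil, or_false] at hc
  rcases hc with rfl | rfl | rfl | rfl | rfl | rfl | rfl | rfl | rfl | rfl | rfl | rfl | rfl
  · exact unitC_complete (by simp [rP]) (XX0 _ _)
  · exact unitC_complete (by simp [rP]) (XX_zero _ _ _)
  · exact unitC_complete (by simp [rP]) (XX_zero _ _ _)
  · exact unitC_complete (by simp [rP]) (XX0 _ _)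
  · exact unitC_complete (by simp [rP]) (XX_zero _ _ _)
  · exact unitC_complete (by simp [rP]) (XX_zero _ _ _)
  · exact unitC_complete (by simp [rM]) (XX0 _ _)
  · exact unitC_complete (by simp [rM]) (XX_twoA _ _ hmA)
  · exact tieC_complete (by simp [rM]) (by simp [rM]) hB (XX_twoB _ _ hB hmB)
  · exact unitC_complete (by simp [rQ]) (XX0 _ _)
  · exact tieC_complete (by simp [rQ]) (by simp [rQ]) hA (XX_one _ _ hA)
  · exact tieC_complete (by simp [rQ]) (by simp [rQ]) hD (XX_one _ _ hD)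
  · refine ⟨fun k => if k = 0 then -1 else if k = 1 then -1 else if k = cA ix u then -x v else 1,
      fun s hs => ?_⟩
    have e0 : (if (0 : ℕ) = 0 then (-1 : ℝ) else if 0 = 1 then -1 else
      if 0 = cA ix u then -x v else 1) = -1 := if_pos rfl
    have e1 : (if (1 : ℕ) = 0 then (-1 : ℝ) else if 1 = 1 then -1 else
      if 1 = cA ix u then -x v else 1) = -1 := by rw [if_neg one_ne_zero, if_pos rfl]
    have eA : (if cA ix u = 0 then (-1 : ℝ) else if cA ix u = 1 then -1 else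
      if cA ix u = cA ix u then -x v else 1) = -x v := by
      rw [if_neg hA, if_neg (cA1 _ _), if_pos rfl]
    have eB : (if cB ix v = 0 then (-1 : ℝ) else if cB ix v = 1 then -1 else
      if cB ix v = cA ix u then -x v else 1) = 1 := by
      rw [if_neg hB, if_neg (cB1 _ _), if_neg (cAB _ _ _).symm]
    have eD : (if cD ix w = 0 then (-1 : ℝ) else if cD ix w = 1 then -1 else
      if cD ix w = cA ix u then -x v else 1) = 1 := by
      rw [if_neg hD, if_neg (cD1 _ _), if_neg (cAD _ _ _).symm]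
    simp only [List.mem_cons, List.not_mem_nil, or_false] at hs ⊢
    rcases hs with rfl | rfl | rfl | rfl | rfl | rfl
    · rw [dot_rE (by simp), XX_rE, e0]; ring
    · rw [dot_rE (by simp), XX_rE, e1]; ring
    · unfold rP
      rw [dot_row3 (by simp) (by simp) (by simp) hB.symm (by simp) (cB1 _ _), XX0, XX_zero,
        XX_zero, e0, e1, eB]
      ring
    · unfold rP
      rw [dot_row3 (by simp) (by simp) (by simp) hD.symm (by simp) (cD1 _ _), XX0, XX_zero,
        XX_zero, e0, e1, eD]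
      ring
    · unfold rM
      rw [dot_row3 (by simp) (by simp) (by simp) hA.symm hB.symm (cAB _ _ _), XX0,
        XX_twoA _ _ hmA, XX_twoB _ _ hB hmB, e0, eA, eB, hv.2.1]
      ring
    · unfold rQ
      rw [dot_row3 (by simp) (by simp) (by simp) hA.symm hD.symm (cAD _ _ _), XX0,
        XX_one _ _ hA, XX_one _ _ hD, e0, eA, eD, hu.1, hw.2.2, ← h1]
      ring

theorem conC_complete {ix : ℕ → ℕ} {vl x : ℕ → ℝ} {c : Con} (h : ∀ v ∈ c.vars, VlOk ix vl x v)
    (hc : c.Holds x) : ∀ d ∈ conC ix c, ColOk (XX vl) d := by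
  cases c with
  | one v => exact oneC_complete (h v (by simp [Con.vars])) hc
  | add u v w =>
    exact addC_complete (h u (by simp [Con.vars])) (h v (by simp [Con.vars]))
      (h w (by simp [Con.vars])) hc
  | mul u v w =>
    exact mulC_complete (h u (by simp [Con.vars])) (h v (by simp [Con.vars]))
      (h w (by simp [Con.vars])) hc

end Pool.Agent.NPC.R537CM
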